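import Pool.Agent.N226.BM.Straight

/-!
The rescaled maps `R_τ(u) = 1 + τ (u^n + u^{-n} - 2)` near a point `u₀` with `u₀^n = -1`.
-/

set_option autoImplicit false
open Complex Set Metric Topology Filter

namespace Pool.Agent.N226.BM

/-- The rescaled map. -/
noncomputable def R (n : ℕ) (τ u : ℂ) : ℂ := 1 + τ * (u ^ n + (u ^ n)⁻¹ - 2)

/-- The multiplier of a fixed point of the rescaled map, as a function of the fixed point. -/
noncomputable def Rho (n : ℕ) (p : ℂ) : ℂ := n * (1 - p⁻¹) * ((p ^ n + 1) / (p ^ n - 1))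

/-- The standing hypotheses on `n`, `k` and the base point. -/
structure Reg (n k : ℕ) (u0 : ℂ) : Prop where
  hk : 1 ≤ k
  hn : 2000 * k ^ 3 ≤ n
  pow : u0 ^ n = -1
  nrm : ‖u0‖ = 1
  le : ‖1 - u0‖ ≤ 3.2 * k / n
  ge : 2 * k / n ≤ ‖1 - u0‖

/-- The radius of the discs we use. -/
noncomputable def rad (n k : ℕ) : ℝ := 1 / (100 * k * n)

lemma norm_one_add_pow_sub_one_le (x : ℂ) (m : ℕ) :
    ‖(1 + x) ^ m - 1‖ ≤ (1 + ‖x‖) ^ m - 1 := by
  induction m with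
  | zero => simp
  | succ m ih =>
    have h1 : (1 + x) ^ (m + 1) - 1 = (1 + x) * ((1 + x) ^ m - 1) + x := by ring
    have h2 : ‖(1 : ℂ) + x‖ ≤ 1 + ‖x‖ := by
      have := norm_add_le (1 : ℂ) x
      simpa using this
    rw [h1]
    calc ‖(1 + x) * ((1 + x) ^ m - 1) + x‖ ≤ ‖(1 + x) * ((1 + x) ^ m - 1)‖ + ‖x‖ := norm_add_le _ _
      _ = ‖1 + x‖ * ‖(1 + x) ^ m - 1‖ + ‖x‖ := by rw [norm_mul]
      _ ≤ (1 + ‖x‖) * ((1 + ‖x‖) ^ m - 1) + ‖x‖ := by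
          gcongr
      _ = (1 + ‖x‖) ^ (m + 1) - 1 := by ring

variable {n k : ℕ} {u0 : ℂ}

lemma Reg.kR (H : Reg n k u0) : (1 : ℝ) ≤ k := by exact_mod_cast H.hk

lemma Reg.nR (H : Reg n k u0) : 2000 * (k : ℝ) ^ 3 ≤ n := by exact_mod_cast H.hn

lemma Reg.n_ge (H : Reg n k u0) : 2000 * (k : ℝ) ≤ n := by
  have h1 := H.kR
  have h2 := H.nR
  have h3 : (k : ℝ) ≤ (k : ℝ) ^ 3 := by nlinarith [sq_nonneg ((k : ℝ)), mul_self_nonneg ((k : ℝ) - 1)]
  linarith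

lemma Reg.n_pos (H : Reg n k u0) : (0 : ℝ) < n := by
  have h1 := H.kR
  have h2 := H.n_ge
  linarith

lemma Reg.n_large (H : Reg n k u0) : (2000 : ℝ) ≤ n := by
  have h1 := H.kR
  have h2 := H.n_ge
  linarith

lemma Reg.rad_pos (H : Reg n k u0) : 0 < rad n k := by
  have h1 := H.kR
  have h2 := H.n_pos
  unfold rad
  positivity

lemma Reg.n_mul_rad (H : Reg n k u0) : (n : ℝ) * rad n k = 1 / (100 * k) := by
  have h1 := H.kR
  have h2 := H.n_pos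
  unfold rad
  field_simp

lemma Reg.rad_le (H : Reg n k u0) : rad n k ≤ 1 / 200000 := by
  have h1 := H.kR
  have h2 := H.n_large
  unfold rad
  rw [div_le_div_iff₀ (by positivity) (by norm_num)]
  nlinarith

lemma Reg.inv_k_le (H : Reg n k u0) : 1 / (99 * (k : ℝ)) ≤ 1 / 99 := by
  have h1 := H.kR
  rw [div_le_div_iff₀ (by positivity) (by norm_num)]
  nlinarith

lemma Reg.one_add_pow (H : Reg n k u0) {x : ℂ} (hx : ‖x‖ ≤ rad n k) {m : ℕ} (hm : m ≤ n) :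
    ‖(1 + x) ^ m - 1‖ ≤ 1 / (99 * k) := by
  have h1 := H.kR
  have h2 := H.n_pos
  have hy : (0 : ℝ) < 1 / (100 * (k : ℝ)) := by positivity
  have hy1 : 1 / (100 * (k : ℝ)) ≤ 1 / 100 := by
    rw [div_le_div_iff₀ (by positivity) (by norm_num)]
    nlinarith
  have h3 : (1 + ‖x‖) ^ m ≤ Real.exp (1 / (100 * k)) := by
    calc (1 + ‖x‖) ^ m ≤ (1 + rad n k) ^ m := by gcongr
      _ ≤ (1 + rad n k) ^ n := by
          apply pow_le_pow_right₀ _ hm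
          have := H.rad_pos
          linarith
      _ ≤ (Real.exp (rad n k)) ^ n := by
          have := H.rad_pos
          gcongr
          have := Real.add_one_le_exp (rad n k)
          linarith
      _ = Real.exp (1 / (100 * k)) := by
          rw [← Real.exp_nat_mul, H.n_mul_rad]
  have h4 : |Real.exp (1 / (100 * (k : ℝ))) - 1 - 1 / (100 * (k : ℝ))| ≤ (1 / (100 * (k : ℝ))) ^ 2 := by
    apply Real.abs_exp_sub_one_sub_id_le
    rw [abs_of_pos hy]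
    linarith
  have h5 := (abs_le.mp h4).2
  have h6 : (1 / (100 * (k : ℝ))) ^ 2 ≤ (1 / 100) * (1 / (100 * (k : ℝ))) := by
    rw [sq]
    gcongr
  have h7 : 1.01 * (1 / (100 * (k : ℝ))) ≤ 1 / (99 * k) := by
    have e1 : 1.01 * (1 / (100 * (k : ℝ))) = (1.01 / 100) / k := by field_simp
    have e2 : 1 / (99 * (k : ℝ)) = (1 / 99) / k := by field_simp
    rw [e1, e2]
    apply div_le_div_of_nonneg_right _ (by linarith)
    norm_num
  have h8 := norm_one_add_pow_sub_one_le x m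
  linarith

/-- Powers up to `n` are nearly constant on the disc of radius `rad n k` about `u0`. -/
lemma Reg.pow_near (H : Reg n k u0) {u : ℂ} (hu : ‖u - u0‖ ≤ rad n k) {m : ℕ} (hm : m ≤ n) :
    ‖u ^ m - u0 ^ m‖ ≤ 1 / (99 * k) := by
  have hu0 : u0 ≠ 0 := by
    intro h
    have := H.nrm
    rw [h] at this
    simp at this
  have hx : ‖(u - u0) / u0‖ ≤ rad n k := by rw [norm_div, H.nrm, div_one]; exact hu
  have h1 := H.one_add_pow hx hm
  have h2 : u ^ m - u0 ^ m = u0 ^ m * ((1 + (u - u0) / u0) ^ m - 1) := by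
    have : 1 + (u - u0) / u0 = u / u0 := by field_simp; ring
    rw [this, div_pow]
    field_simp
  rw [h2, norm_mul, norm_pow, H.nrm, one_pow, one_mul]
  exact h1

lemma Reg.pown_near (H : Reg n k u0) {u : ℂ} (hu : ‖u - u0‖ ≤ rad n k) :
    ‖u ^ n + 1‖ ≤ 1 / (99 * k) := by
  have := H.pow_near hu le_rfl
  rwa [H.pow, sub_neg_eq_add] at this

lemma Reg.norm_pow_bounds (H : Reg n k u0) {u : ℂ} (hu : ‖u - u0‖ ≤ rad n k) {m : ℕ} (hm : m ≤ n) :
    0.98 ≤ ‖u ^ m‖ ∧ ‖u ^ m‖ ≤ 1.02 := by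
  have h1 := H.pow_near hu hm
  have h2 := H.inv_k_le
  have h3 : ‖u0 ^ m‖ = 1 := by rw [norm_pow, H.nrm, one_pow]
  have h4 := abs_norm_sub_norm_le (u ^ m) (u0 ^ m)
  have h5 := abs_le.mp h4
  rw [h3] at h5
  constructor
  · have : (1:ℝ)/99 ≤ 0.02 := by norm_num
    linarith [h5.1]
  · have : (1:ℝ)/99 ≤ 0.02 := by norm_num
    linarith [h5.2]

lemma Reg.ne_zero (H : Reg n k u0) {u : ℂ} (hu : ‖u - u0‖ ≤ rad n k) : u ≠ 0 := by
  intro h
  have hn : 1 ≤ n := by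
    have := H.n_large
    have h2 : (1 : ℝ) ≤ n := by linarith
    exact_mod_cast h2
  have := (H.norm_pow_bounds hu hn).1
  rw [h] at this
  simp at this
  norm_num at this

lemma Reg.powlin (H : Reg n k u0) {u u' : ℂ} (hu : ‖u - u0‖ ≤ rad n k)
    (hu' : ‖u' - u0‖ ≤ rad n k) :
    ‖(u ^ n - u' ^ n) - n * u0 ^ (n - 1) * (u - u')‖ ≤ n / (99 * k) * ‖u - u'‖ := by
  have hconv : Convex ℝ (closedBall u0 (rad n k)) := convex_closedBall _ _
  have hd : ∀ x ∈ closedBall u0 (rad n k), HasDerivWithinAt (fun u : ℂ => u ^ n - n * u0 ^ (n - 1) * u)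
      (n * x ^ (n - 1) - n * u0 ^ (n - 1)) (closedBall u0 (rad n k)) x := by
    intro x _
    have h1 : HasDerivAt (fun u : ℂ => u ^ n) (n * x ^ (n - 1)) x := hasDerivAt_pow n x
    have h2 : HasDerivAt (fun u : ℂ => n * u0 ^ (n - 1) * u) (n * u0 ^ (n - 1)) x := by
      simpa using (hasDerivAt_id x).const_mul ((n : ℂ) * u0 ^ (n - 1))
    exact (h1.sub h2).hasDerivWithinAt
  have hb : ∀ x ∈ closedBall u0 (rad n k), ‖(n * x ^ (n - 1) - n * u0 ^ (n - 1) : ℂ)‖ ≤ n / (99 * k) := by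
    intro x hx
    have hx' : ‖x - u0‖ ≤ rad n k := by rwa [mem_closedBall, dist_eq_norm] at hx
    have h1 := H.pow_near hx' (Nat.sub_le n 1)
    have h2 : (n * x ^ (n - 1) - n * u0 ^ (n - 1) : ℂ) = n * (x ^ (n - 1) - u0 ^ (n - 1)) := by ring
    rw [h2, norm_mul, Complex.norm_natCast]
    calc (n : ℝ) * ‖x ^ (n - 1) - u0 ^ (n - 1)‖ ≤ n * (1 / (99 * k)) := by gcongr
      _ = n / (99 * k) := by ring
  have := hconv.norm_image_sub_le_of_norm_hasDerivWithin_le hd hb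
    (show u' ∈ closedBall u0 (rad n k) by rwa [mem_closedBall, dist_eq_norm])
    (show u ∈ closedBall u0 (rad n k) by rwa [mem_closedBall, dist_eq_norm])
  have e : u ^ n - n * u0 ^ (n - 1) * u - (u' ^ n - n * u0 ^ (n - 1) * u') =
    (u ^ n - u' ^ n) - n * u0 ^ (n - 1) * (u - u') := by ring
  rw [← e]
  exact this

lemma Reg.tau_le (H : Reg n k u0) {τ : ℂ} (hτ : ‖1 - 4 * τ - u0‖ ≤ rad n k / 2) :
    ‖τ‖ * n ≤ k := by
  have h1 := H.kR
  have h2 := H.n_pos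
  have h3 := H.le
  have h4 : ‖(4 : ℂ) * τ‖ ≤ ‖1 - u0‖ + ‖1 - 4 * τ - u0‖ := by
    calc ‖(4 : ℂ) * τ‖ = ‖(1 - u0) - (1 - 4 * τ - u0)‖ := by congr 1; ring
      _ ≤ ‖1 - u0‖ + ‖1 - 4 * τ - u0‖ := norm_sub_le _ _
  rw [norm_mul] at h4
  have h5 : ‖(4 : ℂ)‖ = (4 : ℝ) := by simp
  rw [h5] at h4
  have h6 : 4 * ‖τ‖ ≤ 3.2 * k / n + rad n k / 2 := by linarith
  have h7 : 4 * ‖τ‖ * n ≤ (3.2 * k / n + rad n k / 2) * n := by gcongr
  have h8 : (3.2 * k / n + rad n k / 2) * n = 3.2 * k + (1 / (100 * k)) / 2 := by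
    have := H.n_mul_rad
    have e1 : (3.2 * (k : ℝ) / n) * n = 3.2 * k := by field_simp
    have e2 : (rad n k / 2) * n = (n * rad n k) / 2 := by ring
    rw [add_mul, e1, e2, this]
  have h9 : 1 / (100 * (k : ℝ)) ≤ 1 / 100 := by
    rw [div_le_div_iff₀ (by positivity) (by norm_num)]
    nlinarith
  nlinarith

lemma hasDerivAt_R (n : ℕ) (τ : ℂ) {u : ℂ} (hu : u ≠ 0) :
    HasDerivAt (R n τ) (τ * (n * u ^ (n - 1) * (1 - ((u ^ n) ^ 2)⁻¹))) u := by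
  have h1 : HasDerivAt (fun u : ℂ => u ^ n) (n * u ^ (n - 1)) u := hasDerivAt_pow n u
  have h2 := h1.inv (pow_ne_zero n hu)
  have h3 := (((h1.add h2).sub_const 2).const_mul τ).const_add 1
  refine (h3.congr_deriv ?_)
  field_simp
  ring

lemma Reg.deriv_le (H : Reg n k u0) {τ : ℂ} (hτ : ‖1 - 4 * τ - u0‖ ≤ rad n k / 2) {u : ℂ}
    (hu : ‖u - u0‖ ≤ rad n k) : ‖τ * (n * u ^ (n - 1) * (1 - ((u ^ n) ^ 2)⁻¹))‖ ≤ 1 / 30 := by
  have h1 := H.kR
  have h2 := H.n_pos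
  have hne := H.ne_zero hu
  have hy : u ^ n ≠ 0 := pow_ne_zero n hne
  have e1 : 1 - ((u ^ n) ^ 2)⁻¹ = (u ^ n + 1) * (u ^ n - 1) / (u ^ n) ^ 2 := by
    field_simp
    ring
  have h3 := H.tau_le hτ
  have h4 := (H.norm_pow_bounds hu (Nat.sub_le n 1)).2
  have h5 := H.pown_near hu
  have h6 : ‖u ^ n - 1‖ ≤ 2.02 := by
    have : u ^ n - 1 = u ^ n + (-1) := by ring
    rw [this]
    have h7 := norm_add_le (u ^ n) (-1)
    have h8 := (H.norm_pow_bounds hu le_rfl).2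
    rw [norm_neg, norm_one] at h7
    linarith
  have h9 := (H.norm_pow_bounds hu le_rfl).1
  rw [e1]
  rw [norm_mul, norm_mul, norm_mul, norm_div, norm_mul, norm_pow (u ^ n), Complex.norm_natCast]
  have h10 : ‖u ^ n + 1‖ * ‖u ^ n - 1‖ / ‖u ^ n‖ ^ 2 ≤ (1 / (99 * k)) * 2.02 / (0.98) ^ 2 := by
    gcongr
  calc ‖τ‖ * (↑n * ‖u ^ (n - 1)‖ * (‖u ^ n + 1‖ * ‖u ^ n - 1‖ / ‖u ^ n‖ ^ 2))
      ≤ ‖τ‖ * (↑n * 1.02 * ((1 / (99 * k)) * 2.02 / (0.98) ^ 2)) := by gcongr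
    _ = (‖τ‖ * n) * (1.02 * ((1 / (99 * k)) * 2.02 / (0.98) ^ 2)) := by ring
    _ ≤ k * (1.02 * ((1 / (99 * k)) * 2.02 / (0.98) ^ 2)) := by gcongr
    _ = (1.02 * 2.02 / (99 * 0.98 ^ 2)) := by field_simp
    _ ≤ 1 / 30 := by norm_num

lemma Reg.lip (H : Reg n k u0) {τ : ℂ} (hτ : ‖1 - 4 * τ - u0‖ ≤ rad n k / 2) {u u' : ℂ}
    (hu : ‖u - u0‖ ≤ rad n k) (hu' : ‖u' - u0‖ ≤ rad n k) :
    ‖R n τ u - R n τ u'‖ ≤ 1 / 30 * ‖u - u'‖ := by
  have hconv : Convex ℝ (closedBall u0 (rad n k)) := convex_closedBall _ _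
  refine hconv.norm_image_sub_le_of_norm_hasDerivWithin_le
    (f' := fun u => τ * (n * u ^ (n - 1) * (1 - ((u ^ n) ^ 2)⁻¹))) ?_ ?_
    (show u' ∈ closedBall u0 (rad n k) by rwa [mem_closedBall, dist_eq_norm])
    (show u ∈ closedBall u0 (rad n k) by rwa [mem_closedBall, dist_eq_norm])
  · intro x hx
    have hx' : ‖x - u0‖ ≤ rad n k := by rwa [mem_closedBall, dist_eq_norm] at hx
    exact (hasDerivAt_R n τ (H.ne_zero hx')).hasDerivWithinAt
  · intro x hx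
    have hx' : ‖x - u0‖ ≤ rad n k := by rwa [mem_closedBall, dist_eq_norm] at hx
    exact H.deriv_le hτ hx'

lemma Reg.R_u0 (H : Reg n k u0) (τ : ℂ) : R n τ u0 = 1 - 4 * τ := by
  unfold R
  rw [H.pow]
  norm_num
  ring

/-- Existence of the attracting fixed point and convergence of the orbit of `u0`. -/
lemma Reg.exists_fixed (H : Reg n k u0) {τ : ℂ} (hτ : ‖1 - 4 * τ - u0‖ ≤ rad n k / 2) :
    ∃ p : ℂ, ‖p - u0‖ ≤ rad n k ∧ R n τ p = p ∧
      Tendsto (fun m => (R n τ)^[m] u0) atTop (𝓝 p) := by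
  have hpos := H.rad_pos
  have hmaps : MapsTo (R n τ) (closedBall u0 (rad n k)) (closedBall u0 (rad n k)) := by
    intro u hu
    rw [mem_closedBall, dist_eq_norm] at hu ⊢
    have h1 := H.lip hτ hu (by simpa using hpos.le : ‖u0 - u0‖ ≤ rad n k)
    have h2 := H.R_u0 τ
    have e : R n τ u - u0 = (R n τ u - R n τ u0) + (1 - 4 * τ - u0) := by rw [h2]; ring
    rw [e]
    have h3 := norm_add_le (R n τ u - R n τ u0) (1 - 4 * τ - u0)
    nlinarith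
  have hcomplete : IsComplete (closedBall u0 (rad n k)) := isClosed_closedBall.isComplete
  have hlip : ContractingWith (1 / 30 : NNReal) (hmaps.restrict (R n τ) _ _) := by
    constructor
    · rw [← NNReal.coe_lt_coe]; norm_num
    · apply LipschitzWith.of_dist_le_mul
      intro x y
      rw [Subtype.dist_eq, Subtype.dist_eq, dist_eq_norm, dist_eq_norm]
      have hx : ‖(x : ℂ) - u0‖ ≤ rad n k := by
        have := x.2; rwa [mem_closedBall, dist_eq_norm] at this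
      have hy : ‖(y : ℂ) - u0‖ ≤ rad n k := by
        have := y.2; rwa [mem_closedBall, dist_eq_norm] at this
      have := H.lip hτ hx hy
      simpa using this
  obtain ⟨p, hp, hfix, hlim, -⟩ := hlip.exists_fixedPoint' hcomplete hmaps
    (show u0 ∈ closedBall u0 (rad n k) from mem_closedBall_self hpos.le) (edist_ne_top _ _)
  refine ⟨p, ?_, hfix, hlim⟩
  rwa [mem_closedBall, dist_eq_norm] at hp

lemma Reg.fixed_near (H : Reg n k u0) {τ p : ℂ} (hτ : ‖1 - 4 * τ - u0‖ ≤ rad n k / 2)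
    (hp : ‖p - u0‖ ≤ rad n k) (hfix : R n τ p = p) :
    ‖(1 - 4 * τ - u0) - (p - u0)‖ ≤ 1 / 30 * ‖p - u0‖ := by
  have h1 := H.lip hτ hp (by simpa using H.rad_pos.le : ‖u0 - u0‖ ≤ rad n k)
  rw [hfix, H.R_u0] at h1
  rw [← norm_neg]
  have e : -((1 - 4 * τ - u0) - (p - u0)) = p - (1 - 4 * τ) := by ring
  rw [e]
  exact h1

lemma Reg.pow_sub_one_ge (H : Reg n k u0) {p : ℂ} (hp : ‖p - u0‖ ≤ rad n k) :
    1.98 ≤ ‖p ^ n - 1‖ := by
  have h1 := H.pown_near hp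
  have h2 := H.inv_k_le
  have h3 : ‖(-2 : ℂ)‖ ≤ ‖p ^ n - 1‖ + ‖p ^ n + 1‖ := by
    have : (-2 : ℂ) = (p ^ n - 1) - (p ^ n + 1) := by ring
    rw [this]
    exact norm_sub_le _ _
  have h4 : ‖(-2 : ℂ)‖ = 2 := by simp
  have : (1:ℝ)/99 ≤ 0.02 := by norm_num
  linarith

lemma Reg.sum_ne (H : Reg n k u0) {p : ℂ} (hp : ‖p - u0‖ ≤ rad n k) :
    p ^ n + (p ^ n)⁻¹ - 2 ≠ 0 := by
  have hne := pow_ne_zero n (H.ne_zero hp)
  have h1 : p ^ n + (p ^ n)⁻¹ - 2 = (p ^ n - 1) ^ 2 / p ^ n := by field_simp; ring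
  rw [h1]
  have h2 : p ^ n - 1 ≠ 0 := by
    intro h
    have := H.pow_sub_one_ge hp
    rw [h] at this
    simp at this
    norm_num at this
  exact div_ne_zero (pow_ne_zero 2 h2) hne

/-- The parameter is determined by the fixed point. -/
lemma Reg.tau_eq (H : Reg n k u0) {τ p : ℂ} (hp : ‖p - u0‖ ≤ rad n k) (hfix : R n τ p = p) :
    τ = (p - 1) / (p ^ n + (p ^ n)⁻¹ - 2) := by
  rw [eq_div_iff (H.sum_ne hp)]
  unfold R at hfix
  linear_combination hfix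

/-- The multiplier at the fixed point. -/
lemma Reg.hasDerivAt_fixed (H : Reg n k u0) {τ p : ℂ} (hp : ‖p - u0‖ ≤ rad n k)
    (hfix : R n τ p = p) : HasDerivAt (R n τ) (Rho n p) p := by
  have hpne := H.ne_zero hp
  have hne := pow_ne_zero n hpne
  have h2 : p ^ n - 1 ≠ 0 := by
    intro h
    have := H.pow_sub_one_ge hp
    rw [h] at this
    simp at this
    norm_num at this
  have hn : 1 ≤ n := by
    have := H.n_large
    have h2 : (1 : ℝ) ≤ n := by linarith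
    exact_mod_cast h2
  refine (hasDerivAt_R n τ hpne).congr_deriv ?_
  have h3 : p ^ n + (p ^ n)⁻¹ - 2 = (p ^ n - 1) ^ 2 / p ^ n := by field_simp; ring
  rw [H.tau_eq hp hfix, h3]
  unfold Rho
  have h4 : p ^ (n - 1) = p ^ n / p := by
    rw [eq_div_iff hpne, ← pow_succ]
    congr 1
    omega
  rw [h4]
  field_simp
  ring

lemma Reg.rho_le (H : Reg n k u0) {τ p : ℂ} (hτ : ‖1 - 4 * τ - u0‖ ≤ rad n k / 2)
    (hp : ‖p - u0‖ ≤ rad n k) (hfix : R n τ p = p) : ‖Rho n p‖ ≤ 1 / 30 := by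
  have h1 := H.hasDerivAt_fixed hp hfix
  have h2 := hasDerivAt_R n τ (H.ne_zero hp)
  rw [h1.unique h2]
  exact H.deriv_le hτ hp

/-- Lipschitz dependence of the fixed point on the parameter. -/
lemma Reg.fixed_lip (H : Reg n k u0) {τ τ' p p' : ℂ} (hτ : ‖1 - 4 * τ - u0‖ ≤ rad n k / 2)
    (hp : ‖p - u0‖ ≤ rad n k) (hfix : R n τ p = p)
    (hp' : ‖p' - u0‖ ≤ rad n k) (hfix' : R n τ' p' = p') :
    ‖p - p'‖ ≤ 5 * ‖τ - τ'‖ := by
  have h1 := H.lip hτ hp hp'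
  have h2 : R n τ p' - R n τ' p' = (τ - τ') * (p' ^ n + (p' ^ n)⁻¹ - 2) := by unfold R; ring
  have h3 : ‖p' ^ n + (p' ^ n)⁻¹ - 2‖ ≤ 4.1 := by
    have hb := H.norm_pow_bounds hp' le_rfl
    have hinv : ‖(p' ^ n)⁻¹‖ ≤ 1 / 0.98 := by
      rw [norm_inv, ← one_div]
      have := hb.1
      gcongr
    calc ‖p' ^ n + (p' ^ n)⁻¹ - 2‖ ≤ ‖p' ^ n + (p' ^ n)⁻¹‖ + ‖(2 : ℂ)‖ := norm_sub_le _ _
      _ ≤ ‖p' ^ n‖ + ‖(p' ^ n)⁻¹‖ + ‖(2 : ℂ)‖ := by gcongr; exact norm_add_le _ _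
      _ ≤ 1.02 + 1 / 0.98 + 2 := by
          have : ‖(2 : ℂ)‖ = 2 := by simp
          rw [this]
          linarith [hb.2]
      _ ≤ 4.1 := by norm_num
  have h4 : p - p' = (R n τ p - R n τ p') + (R n τ p' - R n τ' p') := by
    rw [hfix, hfix']; ring
  have h5 : ‖p - p'‖ ≤ 1 / 30 * ‖p - p'‖ + ‖τ - τ'‖ * 4.1 := by
    calc ‖p - p'‖ = ‖(R n τ p - R n τ p') + (R n τ p' - R n τ' p')‖ := by rw [← h4]
      _ ≤ ‖R n τ p - R n τ p'‖ + ‖R n τ p' - R n τ' p'‖ := norm_add_le _ _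
      _ ≤ 1 / 30 * ‖p - p'‖ + ‖τ - τ'‖ * 4.1 := by
          rw [h2, norm_mul]
          gcongr
  have := norm_nonneg (p - p')
  have := norm_nonneg (τ - τ')
  linarith

/-- The multiplier is an injective function of the fixed point. -/
lemma Reg.rho_inj (H : Reg n k u0) {p p' : ℂ} (hp : ‖p - u0‖ ≤ rad n k)
    (hp' : ‖p' - u0‖ ≤ rad n k) (he : Rho n p = Rho n p') : p = p' := by
  by_contra hne
  have hk := H.kR
  have hn := H.n_pos
  have hd : 0 < ‖p - p'‖ := norm_pos_iff.mpr (sub_ne_zero.mpr hne)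
  have hp0 := H.ne_zero hp
  have hp0' := H.ne_zero hp'
  have h1 := H.pow_sub_one_ge hp
  have h1' := H.pow_sub_one_ge hp'
  have hy : p ^ n - 1 ≠ 0 := by
    intro h; rw [h] at h1; simp at h1; norm_num at h1
  have hy' : p' ^ n - 1 ≠ 0 := by
    intro h; rw [h] at h1'; simp at h1'; norm_num at h1'
  have hnC : (n : ℂ) ≠ 0 := by
    intro h
    have : (n : ℝ) = 0 := by exact_mod_cast h
    linarith
  -- the exact identity
  have hid : 2 * (1 - p⁻¹) * (p' ^ n - p ^ n) / ((p ^ n - 1) * (p' ^ n - 1)) =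
      (p' ^ n + 1) / (p' ^ n - 1) * ((p' - p) / (p * p')) * (-1) * (-1) := by
    unfold Rho at he
    have he2 : (1 - p⁻¹) * ((p ^ n + 1) / (p ^ n - 1)) = (1 - p'⁻¹) * ((p' ^ n + 1) / (p' ^ n - 1)) := by
      apply mul_left_cancel₀ hnC
      linear_combination he
    have e1 : 2 * (1 - p⁻¹) * (p' ^ n - p ^ n) / ((p ^ n - 1) * (p' ^ n - 1)) =
        (1 - p⁻¹) * ((p ^ n + 1) / (p ^ n - 1)) - (1 - p⁻¹) * ((p' ^ n + 1) / (p' ^ n - 1)) := by
      field_simp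
      ring
    rw [e1, he2]
    field_simp
    ring
  -- sizes
  have b1 : ‖p ^ n - 1‖ ≤ 2.02 ∧ ‖p' ^ n - 1‖ ≤ 2.02 := by
    have aux : ∀ q : ℂ, ‖q - u0‖ ≤ rad n k → ‖q ^ n - 1‖ ≤ 2.02 := by
      intro q hq
      have h7 := norm_sub_le (q ^ n) 1
      have h8 := (H.norm_pow_bounds hq le_rfl).2
      rw [norm_one] at h7
      linarith
    exact ⟨aux p hp, aux p' hp'⟩
  have h1n : 1 ≤ n := by
    have := H.n_large
    have h2 : (1 : ℝ) ≤ n := by linarith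
    exact_mod_cast h2
  have bp := H.norm_pow_bounds hp h1n
  have bp' := H.norm_pow_bounds hp' h1n
  rw [pow_one] at bp bp'
  have b2 : 1.9 * k / n ≤ ‖1 - p⁻¹‖ * ‖p‖ := by
    rw [← norm_mul]
    have e : (1 - p⁻¹) * p = (u0 - 1) + (p - u0) := by field_simp; ring
    rw [e]
    have h3 : ‖u0 - 1‖ ≤ ‖(u0 - 1) + (p - u0)‖ + ‖p - u0‖ := by
      have : u0 - 1 = ((u0 - 1) + (p - u0)) - (p - u0) := by ring
      calc ‖u0 - 1‖ = ‖((u0 - 1) + (p - u0)) - (p - u0)‖ := by rw [← this]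
        _ ≤ _ := norm_sub_le _ _
    have h4 := H.ge
    rw [norm_sub_rev] at h4
    have h5 : rad n k ≤ 0.1 * k / n := by
      have e1 : rad n k = (1 / (100 * k)) / n := by unfold rad; field_simp
      rw [e1]
      apply div_le_div_of_nonneg_right _ hn.le
      rw [div_le_iff₀ (by positivity)]
      nlinarith
    have e2 : 2 * (k : ℝ) / n = 1.9 * k / n + 0.1 * k / n := by ring
    linarith
  have b3 : 0.98 * n * ‖p - p'‖ ≤ ‖p' ^ n - p ^ n‖ := by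
    have h3 := H.powlin hp hp'
    have h4 : ‖(n : ℂ) * u0 ^ (n - 1) * (p - p')‖ = n * ‖p - p'‖ := by
      rw [norm_mul, norm_mul, norm_pow, H.nrm, one_pow, Complex.norm_natCast, mul_one]
    have h5 : ‖(n : ℂ) * u0 ^ (n - 1) * (p - p')‖ ≤ ‖p ^ n - p' ^ n‖ +
        ‖(p ^ n - p' ^ n) - n * u0 ^ (n - 1) * (p - p')‖ := by
      have : (n : ℂ) * u0 ^ (n - 1) * (p - p') = (p ^ n - p' ^ n) -
        ((p ^ n - p' ^ n) - n * u0 ^ (n - 1) * (p - p')) := by ring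
      calc ‖(n : ℂ) * u0 ^ (n - 1) * (p - p')‖ = ‖(p ^ n - p' ^ n) -
          ((p ^ n - p' ^ n) - n * u0 ^ (n - 1) * (p - p'))‖ := by rw [← this]
        _ ≤ _ := norm_sub_le _ _
    rw [h4] at h5
    have h6 : n / (99 * k) * ‖p - p'‖ ≤ n * (1 / 99) * ‖p - p'‖ := by
      have h7 := H.inv_k_le
      have : (n : ℝ) / (99 * k) = n * (1 / (99 * k)) := by ring
      rw [this]
      gcongr
    rw [norm_sub_rev (p' ^ n)]
    nlinarith
  have c1 : ‖2 * (1 - p⁻¹) * (p' ^ n - p ^ n) / ((p ^ n - 1) * (p' ^ n - 1))‖ ≥ 0.8 * ‖p - p'‖ := by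
    rw [norm_div, norm_mul, norm_mul, norm_mul]
    have h2 : ‖(2 : ℂ)‖ = (2 : ℝ) := by simp
    rw [h2, ge_iff_le, le_div_iff₀ (by positivity)]
    have h3 : 1.8 * k / n ≤ ‖1 - p⁻¹‖ := by
      have h4 : ‖1 - p⁻¹‖ * ‖p‖ ≤ ‖1 - p⁻¹‖ * 1.02 := by
        gcongr
        exact bp.2
      have h5 : 1.8 * (k : ℝ) / n * 1.02 ≤ 1.9 * k / n := by
        have : 1.8 * (k : ℝ) / n * 1.02 = 1.836 * k / n := by ring
        rw [this]
        gcongr
        norm_num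
      nlinarith
    have h6 : ‖p ^ n - 1‖ * ‖p' ^ n - 1‖ ≤ 2.02 * 2.02 := by
      gcongr
      · exact b1.1
      · exact b1.2
    have h7 : 1.8 * k / n * (0.98 * n * ‖p - p'‖) ≤ ‖1 - p⁻¹‖ * ‖p' ^ n - p ^ n‖ := by
      gcongr
    have h8 : 1.8 * k / n * (0.98 * n * ‖p - p'‖) = 1.764 * k * ‖p - p'‖ := by
      field_simp
      norm_num
    have h9 : 1.764 * ‖p - p'‖ ≤ 1.764 * k * ‖p - p'‖ := by
      have : 1.764 * (k : ℝ) * ‖p - p'‖ = 1.764 * ‖p - p'‖ * k := by ring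
      rw [this]
      nlinarith
    have h10 : 0.8 * ‖p - p'‖ * (‖p ^ n - 1‖ * ‖p' ^ n - 1‖) ≤ 0.8 * ‖p - p'‖ * (2.02 * 2.02) := by
      gcongr
    nlinarith
  have c2 : ‖(p' ^ n + 1) / (p' ^ n - 1) * ((p' - p) / (p * p')) * (-1) * (-1)‖ ≤ 0.1 * ‖p - p'‖ := by
    have e : (p' ^ n + 1) / (p' ^ n - 1) * ((p' - p) / (p * p')) * (-1) * (-1) =
      (p' ^ n + 1) / (p' ^ n - 1) * ((p' - p) / (p * p')) := by ring
    rw [e, norm_mul, norm_div, norm_div, norm_mul, norm_sub_rev p' p]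
    have h2 : ‖p' ^ n + 1‖ ≤ 1 / 99 := (H.pown_near hp').trans H.inv_k_le
    calc ‖p' ^ n + 1‖ / ‖p' ^ n - 1‖ * (‖p - p'‖ / (‖p‖ * ‖p'‖))
        ≤ (1 / 99) / 1.98 * (‖p - p'‖ / (0.98 * 0.98)) := by
          gcongr
          · exact bp.1
          · exact bp'.1
      _ ≤ 0.1 * ‖p - p'‖ := by
          have : (1 / 99 : ℝ) / 1.98 * (‖p - p'‖ / (0.98 * 0.98)) =
            ((1 / 99 : ℝ) / 1.98 / (0.98 * 0.98)) * ‖p - p'‖ := by ring
          rw [this]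
          gcongr
          norm_num
  rw [hid] at c1
  linarith

end Pool.Agent.N226.BM
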