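import Mathlib

/-!
Definitions for the baby-Mandelbrot question about the maps
`r_{n,a}(z) = z^n + a / z^n + b(a)`, `b(a) = a^{1/2n} - 2 √a` (principal roots).
-/

set_option autoImplicit false
open Complex Set Metric Topology Filter

namespace Pool.Agent.N226.BM

/-- The principal `2n`-th root `|a|^{1/2n} e^{i arg a / 2n}`, where `-π < arg a ≤ π`. -/
noncomputable def root (n : ℕ) (a : ℂ) : ℂ :=
  ((‖a‖ ^ ((1 : ℝ) / (2 * n)) : ℝ) : ℂ) * Complex.exp (((a.arg / (2 * n) : ℝ) : ℂ) * I)

/-- The principal square root `|a|^{1/2} e^{i arg a / 2}`, where `-π < arg a ≤ π`. -/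
noncomputable def sqrtP (a : ℂ) : ℂ :=
  ((‖a‖ ^ ((1 : ℝ) / 2) : ℝ) : ℂ) * Complex.exp (((a.arg / 2 : ℝ) : ℂ) * I)

/-- `b(a) = a^{1/2n} - 2 √a`. -/
noncomputable def bPar (n : ℕ) (a : ℂ) : ℂ := root n a - 2 * sqrtP a

/-- The map `r_{n,a}(z) = z^n + a / z^n + b(a)`. -/
noncomputable def r (n : ℕ) (a z : ℂ) : ℂ := z ^ n + a / z ^ n + bPar n a

/-- The free critical value `v_-(a) = b(a) - 2 √a`. -/
noncomputable def vMinus (n : ℕ) (a : ℂ) : ℂ := bPar n a - 2 * sqrtP a

/-- The parameter `a_k = ((1 - e^{ikπ/n}) / 4)^{2n/(n-1)}` (principal power). -/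
noncomputable def center (n k : ℕ) : ℂ :=
  ((1 - Complex.exp (((k * Real.pi / n : ℝ) : ℂ) * I)) / 4) ^ ((2 * n : ℂ) / (n - 1))

/-- The orbit of `z` under `w ↦ w ^ 2 + c` is bounded. -/
def BoundedOrbit (c z : ℂ) : Prop :=
  ∃ B : ℝ, ∀ m : ℕ, ‖(fun w : ℂ => w ^ 2 + c)^[m] z‖ ≤ B

/-- The Mandelbrot set. -/
def mandelbrot : Set ℂ := {c | BoundedOrbit c 0}

/-- The filled Julia set of `z ^ 2 + c`. -/
def filledJuliaQuad (c : ℂ) : Set ℂ := {z | BoundedOrbit c z}

/-- An open topological disc in the plane. -/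
def IsOpenDisc (U : Set ℂ) : Prop := IsOpen U ∧ Nonempty (U ≃ₜ ball (0 : ℂ) 1)

/-- A closed topological disc in the plane. -/
def IsClosedDisc (W : Set ℂ) : Prop := Nonempty (W ≃ₜ closedBall (0 : ℂ) 1)

/-- `f` restricts to a quadratic-like map `U' → U` with critical value `v`: both sets are open
topological discs, `U'` is relatively compact in `U`, and `f : U' → U` is holomorphic and
proper, of degree two (every point of `U` other than `v` has exactly two preimages in `U'`),
with exactly one critical point in `U'`, whose image is `v`. -/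
structure QuadraticLike (f : ℂ → ℂ) (U' U : Set ℂ) (v : ℂ) : Prop where
  disc' : IsOpenDisc U'
  disc : IsOpenDisc U
  compact : IsCompact (closure U')
  subset : closure U' ⊆ U
  mapsTo : MapsTo f U' U
  holo : DifferentiableOn ℂ f U'
  proper : ∀ K ⊆ U, IsCompact K → IsCompact (U' ∩ f ⁻¹' K)
  two : ∀ y ∈ U, y ≠ v → (U' ∩ f ⁻¹' {y}).encard = 2
  crit : ∃ w ∈ U', f w = v ∧ deriv f w = 0 ∧ ∀ z ∈ U', deriv f z = 0 → z = w

/-- The filled Julia set of the restriction of `f` to `U'`: the points whose whole forward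
orbit stays in `U'`. -/
def filledJulia (f : ℂ → ℂ) (U' : Set ℂ) : Set ℂ := {z | ∀ m : ℕ, f^[m] z ∈ U'}

/-- A weak form of hybrid equivalence between the quadratic-like map `f : U' → U` and
`z ^ 2 + c`: a homeomorphism `h` from an open neighbourhood of the filled Julia set of `f` onto
an open set, taking the filled Julia set of `f` onto that of `z ^ 2 + c`, conjugating the two
maps, and holomorphic on the interior of the filled Julia set. (A hybrid equivalence is in
addition quasiconformal and satisfies `∂̄ h = 0` almost everywhere on the filled Julia set,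
which by Weyl's lemma implies that it is holomorphic on the interior.) -/
def WeakHybrid (f : ℂ → ℂ) (U' : Set ℂ) (c : ℂ) : Prop :=
  ∃ h : OpenPartialHomeomorph ℂ ℂ, filledJulia f U' ⊆ h.source ∧
    h '' filledJulia f U' = filledJuliaQuad c ∧
    (∀ z ∈ h.source, z ∈ U' → f z ∈ h.source → h (f z) = (h z) ^ 2 + c) ∧
    DifferentiableOn ℂ h (interior (filledJulia f U'))

/-- `aStar` is the centre of a baby Mandelbrot set in the `a`-plane of `r_{n,a}`, in the sense
of Douady and Hubbard: there are a compact set `M'` containing `aStar`, a closed topological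
disc `W` of nonzero parameters, quadratic-like restrictions `U' a → U a` of `r_{n,a}`
with critical value `v_-(a)` for all `a ∈ W`, and a homeomorphism `χ` of `M'` onto the
Mandelbrot set taking `aStar` to `0`, such that `M'` is the set of `a ∈ W` for which the
restriction has connected filled Julia set, and for `a ∈ M'` it is hybrid
equivalent to `z ^ 2 + χ a` (only the weak form is asked for). -/
def IsBabyCentre (n : ℕ) (aStar : ℂ) : Prop :=
  ∃ (M' W : Set ℂ) (U' U : ℂ → Set ℂ) (χ : M' ≃ₜ mandelbrot) (hmem : aStar ∈ M'),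
    IsCompact M' ∧ IsClosedDisc W ∧ (0 : ℂ) ∉ W ∧ ((χ ⟨aStar, hmem⟩ : mandelbrot) : ℂ) = 0 ∧
    (∀ a ∈ W, QuadraticLike (r n a) (U' a) (U a) (vMinus n a)) ∧
    M' = {a | a ∈ W ∧ IsConnected (filledJulia (r n a) (U' a))} ∧
    ∀ a : M', WeakHybrid (r n (a : ℂ)) (U' (a : ℂ)) ((χ a : mandelbrot) : ℂ)

end Pool.Agent.N226.BM
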