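import Pool.Agent.N226.BM.Param

/-!
Following the baby Mandelbrot set along the arc `a(φ)` from the centre to the branch cut.
-/

set_option autoImplicit false
open Complex Set Metric Topology Filter

namespace Pool.Agent.N226.BM

/-- The exponent of the path of parameters. -/
noncomputable def wPath (n k : ℕ) (φ : ℝ) : ℂ := (2 * n : ℂ) / (n - 1) * (Lc n k - φ * I)

/-- The path of `2n`-th roots. -/
noncomputable def tPath (n k : ℕ) (φ : ℝ) : ℂ := Complex.exp ((Lc n k - φ * I) / (n - 1))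

/-- The path of rescaled parameters. -/
noncomputable def tauPath (n k : ℕ) (φ : ℝ) : ℂ := (1 - base n k) / 4 * Complex.exp (-(φ * I))

theorem main {n k : ℕ} (hk : Odd k) (hk3 : 3 ≤ k) (hn : 2000 * k ^ 3 ≤ n) :
    ¬ IsBabyCentre n (center n k) := by
  rintro ⟨M', W, U', U, χ, hmem, hM'c, -, hW0, hχ0, hfam, hM', hhyb⟩
  have H : Reg n k (base n k) := reg_base hk hn
  have hn1 := H.one_le
  have hkR : (3 : ℝ) ≤ k := by exact_mod_cast hk3
  have hnR := H.nR
  have hkn := H.n_ge
  have hnpos := H.n_pos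
  have hpi := Real.pi_pos
  have hpi2 := Real.pi_lt_d2
  have hnm1 : (0 : ℝ) < n - 1 := by linarith
  have hnC : (n : ℂ) ≠ 0 := by
    intro h
    have : (n : ℝ) = 0 := by exact_mod_cast h
    linarith
  have hnm1C : (n : ℂ) - 1 ≠ 0 := by
    intro h
    have : (n : ℝ) - 1 = 0 := by exact_mod_cast h
    linarith
  have hth0 : 0 < theta n k := by unfold theta; positivity
  have hth1 : theta n k < Real.pi := by
    unfold theta
    rw [div_lt_iff₀ hnpos]
    nlinarith
  -- the end of the path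
  obtain ⟨φs, hφs⟩ : ∃ φs : ℝ, φs = Real.pi * (k - 1) / (2 * n) := ⟨_, rfl⟩
  have hφs0 : 0 < φs := by
    rw [hφs]
    have : (0 : ℝ) < k - 1 := by linarith
    positivity
  have hφs1 : φs ≤ 1.6 * k / n := by
    rw [hφs, div_le_div_iff₀ (by positivity) hnpos]
    have h1 : Real.pi * (k - 1) ≤ 3.2 * k := by nlinarith
    have h2 : Real.pi * (k - 1) * n ≤ 3.2 * k * n := by gcongr
    linarith
  -- imaginary part of the exponent
  have hwim : ∀ φ : ℝ, (wPath n k φ).im = -Real.pi + 2 * n / (n - 1) * (φs - φ) := by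
    intro φ
    have e1 : wPath n k φ = ((2 * n / (n - 1) : ℝ) : ℂ) * (Lc n k - φ * I) := by
      unfold wPath; push_cast; ring
    rw [e1, Complex.im_ofReal_mul]
    have e2 : (Lc n k - φ * I).im = (theta n k - Real.pi) / 2 - φ := by
      unfold Lc
      simp
    rw [e2, hφs]
    unfold theta
    field_simp
    ring
  have hwim1 : ∀ φ ∈ Ico 0 φs, -Real.pi < (wPath n k φ).im ∧ (wPath n k φ).im < Real.pi := by
    intro φ hφ
    rw [hwim]
    have h1 : 0 < 2 * (n : ℝ) / (n - 1) := by positivity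
    constructor
    · have h2 : 0 < φs - φ := by linarith [hφ.2]
      have := mul_pos h1 h2
      linarith
    · have h2 : 2 * (n : ℝ) / (n - 1) ≤ 4 := by
        rw [div_le_iff₀ hnm1]
        linarith [H.n_large]
      have h3 : φs - φ ≤ 0.01 := by
        have h4 : 1.6 * (k : ℝ) / n ≤ 0.01 := by
          rw [div_le_iff₀ hnpos]
          linarith
        linarith [hφ.1]
      have h5 : 2 * (n : ℝ) / (n - 1) * (φs - φ) ≤ 4 * 0.01 := by
        have : 0 ≤ φs - φ := by linarith [hφ.2]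
        gcongr
      have := Real.pi_gt_three
      linarith
  -- the path
  have hwt : ∀ φ : ℝ, wPath n k φ / (2 * n) = (Lc n k - φ * I) / (n - 1) := by
    intro φ
    unfold wPath
    field_simp
  have hroot : ∀ φ ∈ Ico 0 φs, root n (Complex.exp (wPath n k φ)) = tPath n k φ := by
    intro φ hφ
    obtain ⟨h1, h2⟩ := hwim1 φ hφ
    rw [root_exp hn1 h1 h2.le, hwt]
    rfl
  have htpow : ∀ φ : ℝ, tPath n k φ ^ (n - 1) = tauPath n k φ := by
    intro φ
    unfold tPath tauPath
    rw [← Complex.exp_nat_mul, ← exp_Lc hth0 hth1, ← Complex.exp_add]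
    congr 1
    rw [Nat.cast_sub hn1]
    push_cast
    field_simp
    ring
  have htpow2 : ∀ φ : ℝ, tPath n k φ ^ (2 * n) = Complex.exp (wPath n k φ) := by
    intro φ
    unfold tPath
    rw [← Complex.exp_nat_mul, ← hwt]
    congr 1
    push_cast
    field_simp
  have hcenter : center n k = Complex.exp (wPath n k 0) := by
    unfold center
    have hb : (1 - Complex.exp (((k * Real.pi / n : ℝ) : ℂ) * I)) / 4 = Complex.exp (Lc n k) := by
      rw [exp_Lc hth0 hth1]
      rfl
    rw [hb, Complex.cpow_def_of_ne_zero (Complex.exp_ne_zero _)]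
    have him : (Lc n k).im = (theta n k - Real.pi) / 2 := by
      unfold Lc
      simp
    rw [Complex.log_exp (by rw [him]; linarith) (by rw [him]; linarith)]
    congr 1
    unfold wPath
    simp
    ring
  -- size of the deviation
  have hdev : ∀ φ ∈ Icc 0 φs, ‖1 - 4 * tauPath n k φ - base n k‖ < rad n k / 2 := by
    intro φ hφ
    have e1 : 1 - 4 * tauPath n k φ - base n k =
        (1 - base n k) * (1 - Complex.exp (-(φ * I))) := by
      unfold tauPath; ring
    have h1 := H.le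
    have h2 : ‖1 - Complex.exp (-(φ * I))‖ ≤ φ := by
      rw [norm_sub_rev]
      have := Real.norm_exp_I_mul_ofReal_sub_one_le (x := -φ)
      rw [Real.norm_eq_abs, abs_neg, abs_of_nonneg hφ.1] at this
      have e2 : I * ((-φ : ℝ) : ℂ) = -(φ * I) := by push_cast; ring
      rwa [e2] at this
    have h3 : φ ≤ 1.6 * k / n := hφ.2.trans hφs1
    rw [e1, norm_mul]
    have h4 : ‖1 - base n k‖ * ‖1 - Complex.exp (-(φ * I))‖ ≤ (3.2 * k / n) * (1.6 * k / n) := by
      gcongr
      exact h2.trans h3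
    refine lt_of_le_of_lt h4 ?_
    have e3 : (3.2 * (k : ℝ) / n) * (1.6 * k / n) = 5.12 * k ^ 2 / n / n := by
      field_simp
      norm_num
    have e4 : rad n k / 2 = (1 / (200 * k)) / n := by
      unfold rad
      field_simp
      norm_num
    rw [e3, e4]
    apply div_lt_div_of_pos_right _ hnpos
    rw [div_lt_div_iff₀ hnpos (by positivity)]
    nlinarith
  -- the fixed points along the path
  have hex : ∀ φ : ℝ, ∃ p : ℂ, φ ∈ Icc 0 φs →
      (‖p - base n k‖ ≤ rad n k ∧ R n (tauPath n k φ) p = p) := by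
    intro φ
    by_cases hφ : φ ∈ Icc 0 φs
    · obtain ⟨p, h1, h2, -⟩ := H.exists_fixed (hdev φ hφ).le
      exact ⟨p, fun _ => ⟨h1, h2⟩⟩
    · exact ⟨0, fun h => absurd h hφ⟩
  choose pp hpp using hex
  have htaucont : Continuous (tauPath n k) := by
    unfold tauPath
    fun_prop
  have hppcont : ContinuousOn pp (Icc 0 φs) := by
    intro x hx
    rw [Metric.continuousWithinAt_iff]
    intro ε hε
    have h1 := (Metric.continuous_iff.mp htaucont) x (ε / 6) (by linarith)
    obtain ⟨δ, hδ, h2⟩ := h1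
    refine ⟨δ, hδ, fun y hy hyx => ?_⟩
    have h3 := h2 y hyx
    rw [dist_eq_norm] at h3 ⊢
    have h4 := H.fixed_lip (hdev y hy).le (hpp y hy).1 (hpp y hy).2 (hpp x hx).1 (hpp x hx).2
    linarith
  set cc : ℝ → ℂ := fun φ => Rho n (pp φ) / 2 - Rho n (pp φ) ^ 2 / 4 with hcc
  have hcccont : ContinuousOn cc (Icc 0 φs) := by
    intro x hx
    have h1 : ContinuousWithinAt (fun φ => Rho n (pp φ)) (Icc 0 φs) x :=
      (H.continuousAt_Rho (hpp x hx).1).comp_continuousWithinAt (hppcont x hx)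
    exact (h1.div_const 2).sub ((h1.pow 2).div_const 4)
  have hrho : ∀ φ ∈ Icc 0 φs, ‖Rho n (pp φ)‖ ≤ 1 / 30 := fun φ hφ =>
    H.rho_le (hdev φ hφ).le (hpp φ hφ).1 (hpp φ hφ).2
  have hccM : ∀ φ ∈ Icc 0 φs, cc φ ∈ mandelbrot := fun φ hφ => c_mem (hrho φ hφ)
  -- facts about the family
  have hMW : ∀ a ∈ M', a ∈ W := by
    intro a ha
    rw [hM'] at ha
    exact ha.1
  have hM0 : ∀ a ∈ M', a ≠ 0 := by
    intro a ha h
    exact hW0 (h ▸ hMW a ha)
  have hpar : ∀ (u0 : ℂ), Reg n k u0 → ∀ (a : ℂ) (ha : a ∈ M'),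
      ‖1 - 4 * root n a ^ (n - 1) - u0‖ ≤ rad n k / 2 →
      ∃ p : ℂ, ‖p - u0‖ ≤ rad n k ∧ R n (root n a ^ (n - 1)) p = p ∧
      ((χ ⟨a, ha⟩ : mandelbrot) : ℂ) = Rho n p / 2 - Rho n p ^ 2 / 4 := by
    intro u0 H' a ha hdist
    exact H'.param (hM0 a ha) hdist (hfam a (hMW a ha)) (hhyb ⟨a, ha⟩) (χ ⟨a, ha⟩).2
  have hval : ∀ φ ∈ Ico 0 φs, ∀ (ha : Complex.exp (wPath n k φ) ∈ M'),
      ((χ ⟨_, ha⟩ : mandelbrot) : ℂ) = cc φ := by
    intro φ hφ ha
    have hφ' : φ ∈ Icc 0 φs := Ico_subset_Icc_self hφ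
    have h1 : root n (Complex.exp (wPath n k φ)) ^ (n - 1) = tauPath n k φ := by
      rw [hroot φ hφ, htpow]
    obtain ⟨p, hp1, hp2, hp3⟩ := hpar _ H _ ha (by rw [h1]; exact (hdev φ hφ').le)
    rw [h1] at hp2
    have := H.fixed_unique (hdev φ hφ').le hp1 hp2 (hpp φ hφ').1 (hpp φ hφ').2
    rw [hp3, this]
  -- the set of good angles
  have hwcont : Continuous (fun φ : ℝ => Complex.exp (wPath n k φ)) := by
    unfold wPath
    fun_prop
  have htcont : Continuous (tPath n k) := by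
    unfold tPath
    fun_prop
  set S : Set ℝ := {φ | Complex.exp (wPath n k φ) ∈ M'} with hS
  have hSclosed : IsClosed (S ∩ Icc 0 φs) :=
    (hM'c.isClosed.preimage hwcont).inter isClosed_Icc
  have h0S : (0 : ℝ) ∈ S := by
    change Complex.exp (wPath n k 0) ∈ M'
    rw [← hcenter]
    exact hmem
  have hopen : ∀ x ∈ S ∩ Ico 0 φs, S ∈ 𝓝[>] x := by
    rintro x ⟨hxS, hx⟩
    have hx' : x ∈ Icc 0 φs := Ico_subset_Icc_self hx
    set ax : ℂ := Complex.exp (wPath n k x) with hax
    have haM : ax ∈ M' := hxS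
    have hax0 : ax ≠ 0 := Complex.exp_ne_zero _
    have hslit : ax ∈ slitPlane := by
      rw [Complex.mem_slitPlane_iff_arg]
      refine ⟨?_, hax0⟩
      obtain ⟨h1, h2⟩ := hwim1 x hx
      have h3 := congrArg Complex.im (Complex.log_exp h1 h2.le)
      rw [Complex.log_im] at h3
      rw [hax, h3]
      exact h2.ne
    -- continuity of the root
    have hrc : ContinuousAt (root n) ax := by
      have h1 : ContinuousAt (fun a : ℂ => Complex.exp (Complex.log a / (2 * n))) ax :=
        (Complex.continuous_exp.continuousAt).comp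
          ((continuousAt_clog hslit).div_const _)
      refine h1.congr ?_
      filter_upwards [isOpen_ne.mem_nhds hax0] with a ha
      exact (root_eq hn1 ha).symm
    -- local injectivity of the power
    obtain ⟨N, hN, hNinj⟩ : ∃ N ∈ 𝓝 (tPath n k x), InjOn (fun z : ℂ => z ^ (n - 1)) N := by
      refine eventually_injOn isOpen_univ (fun z _ => ?_) (mem_univ _) ?_
      · exact (differentiableAt_pow (n - 1)).differentiableWithinAt
      · rw [deriv_pow_field]
        have hnn : ((n - 1 : ℕ) : ℂ) ≠ 0 := by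
          rw [Nat.cast_sub hn1]
          push_cast
          exact hnm1C
        exact mul_ne_zero hnn (pow_ne_zero _ (Complex.exp_ne_zero _))
    have hrx : root n ax = tPath n k x := hroot x hx
    have hV1 : ∀ᶠ a in 𝓝 ax, root n a ∈ N := by
      apply hrc
      rw [hrx]
      exact hN
    have hV2 : ∀ᶠ a in 𝓝 ax, ‖1 - 4 * root n a ^ (n - 1) - base n k‖ < rad n k / 2 := by
      have hc1 : ContinuousAt (fun a => ‖1 - 4 * root n a ^ (n - 1) - base n k‖) ax := by
        have h2 : ContinuousAt (fun a => 1 - 4 * root n a ^ (n - 1) - base n k) ax :=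
          ((continuousAt_const.sub (continuousAt_const.mul (hrc.pow (n - 1)))).sub
            continuousAt_const)
        exact h2.norm
      apply hc1.eventually_lt_const
      change ‖1 - 4 * root n ax ^ (n - 1) - base n k‖ < rad n k / 2
      rw [hrx, htpow]
      exact hdev x hx'
    -- continuity of the inverse of χ
    have hχs : ∀ᶠ c : mandelbrot in 𝓝 (χ ⟨ax, haM⟩), (root n ((χ.symm c : M') : ℂ) ∈ N ∧
        ‖1 - 4 * root n ((χ.symm c : M') : ℂ) ^ (n - 1) - base n k‖ < rad n k / 2) := by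
      have h1 : Tendsto (fun c : mandelbrot => ((χ.symm c : M') : ℂ)) (𝓝 (χ ⟨ax, haM⟩)) (𝓝 ax) := by
        have h2 : Continuous (fun c : mandelbrot => ((χ.symm c : M') : ℂ)) :=
          continuous_subtype_val.comp χ.symm.continuous
        have h3 := h2.tendsto (χ ⟨ax, haM⟩)
        simpa using h3
      exact h1 (hV1.and hV2)
    obtain ⟨δ, hδ, hball⟩ := Metric.eventually_nhds_iff_ball.mp hχs
    have hval_x : ((χ ⟨ax, haM⟩ : mandelbrot) : ℂ) = cc x := hval x hx haM
    -- eventually in the path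
    have hIcc : ∀ᶠ φ in 𝓝[>] x, φ ∈ Icc 0 φs := by
      have h1 : Ioo x φs ∈ 𝓝[>] x := Ioo_mem_nhdsGT hx.2
      filter_upwards [h1] with φ hφ
      exact ⟨hx.1.trans hφ.1.le, hφ.2.le⟩
    have hIco : ∀ᶠ φ in 𝓝[>] x, φ ∈ Ico 0 φs := by
      have h1 : Ioo x φs ∈ 𝓝[>] x := Ioo_mem_nhdsGT hx.2
      filter_upwards [h1] with φ hφ
      exact ⟨hx.1.trans hφ.1.le, hφ.2⟩
    have hcclose : ∀ᶠ φ in 𝓝[>] x, dist (cc φ) (cc x) < δ := by
      have h1 := hcccont x hx'
      have h2 : Tendsto cc (𝓝[>] x) (𝓝 (cc x)) := by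
        refine h1.tendsto.comp ?_ |>.congr (fun _ => rfl)
        rw [tendsto_nhdsWithin_iff]
        exact ⟨nhdsWithin_le_nhds, hIcc⟩
      exact h2 (Metric.ball_mem_nhds _ hδ)
    have htN : ∀ᶠ φ in 𝓝[>] x, tPath n k φ ∈ N :=
      nhdsWithin_le_nhds (htcont.continuousAt hN)
    filter_upwards [hIco, hcclose, htN] with φ hφ hclose htφ
    have hφ' : φ ∈ Icc 0 φs := Ico_subset_Icc_self hφ
    have hb := hball ⟨cc φ, hccM φ hφ'⟩ (by
      rw [mem_ball, Subtype.dist_eq, hval_x]
      exact hclose)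
    obtain ⟨hb1, hb2⟩ := hb
    set a2 : M' := χ.symm ⟨cc φ, hccM φ hφ'⟩ with ha2
    obtain ⟨p, hp1, hp2, hp3⟩ := hpar _ H (a2 : ℂ) a2.2 hb2.le
    have hχa2 : ((χ ⟨(a2 : ℂ), a2.2⟩ : mandelbrot) : ℂ) = cc φ := by
      have : (⟨(a2 : ℂ), a2.2⟩ : M') = χ.symm ⟨cc φ, hccM φ hφ'⟩ := rfl
      rw [this, Homeomorph.apply_symm_apply]
    rw [hχa2] at hp3
    have hr : Rho n (pp φ) = Rho n p := c_inj (hrho φ hφ') (H.rho_le hb2.le hp1 hp2) hp3
    have hpe : pp φ = p := H.rho_inj (hpp φ hφ').1 hp1 hr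
    have ht1 := H.tau_eq (hpp φ hφ').1 (hpp φ hφ').2
    have ht2 := H.tau_eq hp1 hp2
    rw [hpe] at ht1
    have ht3 : root n (a2 : ℂ) ^ (n - 1) = tPath n k φ ^ (n - 1) := by
      rw [htpow, ht1, ht2]
    have ht4 : root n (a2 : ℂ) = tPath n k φ := hNinj hb1 htφ ht3
    have ht5 : (a2 : ℂ) = Complex.exp (wPath n k φ) := by
      rw [← root_pow_two_n hn1 (hM0 _ a2.2), ht4, htpow2]
    change Complex.exp (wPath n k φ) ∈ M'
    rw [← ht5]
    exact a2.2
  have hall : Icc 0 φs ⊆ S := hSclosed.Icc_subset_of_forall_mem_nhdsWithin h0S hopen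
  have hsM : Complex.exp (wPath n k φs) ∈ M' := hall (right_mem_Icc.mpr hφs0.le)
  have hsIcc : φs ∈ Icc 0 φs := right_mem_Icc.mpr hφs0.le
  -- value at the end by continuity
  have hlimval : ((χ ⟨_, hsM⟩ : mandelbrot) : ℂ) = cc φs := by
    have hIco : ∀ᶠ φ in 𝓝[<] φs, φ ∈ Ico 0 φs := by
      filter_upwards [Ioo_mem_nhdsLT hφs0] with φ hφ
      exact ⟨hφ.1.le, hφ.2⟩
    have h1 : Tendsto cc (𝓝[<] φs) (𝓝 (cc φs)) := by
      have h2 := hcccont φs hsIcc
      refine h2.tendsto.comp ?_ |>.congr (fun _ => rfl)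
      rw [tendsto_nhdsWithin_iff]
      exact ⟨nhdsWithin_le_nhds, hIco.mono fun φ hφ => Ico_subset_Icc_self hφ⟩
    set X : Icc 0 φs → ℂ := fun φ => ((χ ⟨Complex.exp (wPath n k φ), hall φ.2⟩ : mandelbrot) : ℂ)
      with hX
    have hXc : Continuous X := by
      refine continuous_subtype_val.comp (χ.continuous.comp ?_)
      exact Continuous.subtype_mk (hwcont.comp continuous_subtype_val) _
    have h3 : ContinuousOn (fun φ : ℝ => if h : φ ∈ Icc 0 φs then X ⟨φ, h⟩ else 0) (Icc 0 φs) := by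
      rw [continuousOn_iff_continuous_domRestrict]
      refine hXc.congr ?_
      intro φ
      simp only [Set.domRestrict_apply]
      rw [dif_pos φ.2]
    have h4 := h3 φs hsIcc
    have h5 : Tendsto (fun φ : ℝ => if h : φ ∈ Icc 0 φs then X ⟨φ, h⟩ else 0) (𝓝[<] φs)
        (𝓝 (if h : φs ∈ Icc 0 φs then X ⟨φs, h⟩ else 0)) := by
      refine h4.tendsto.comp ?_ |>.congr (fun _ => rfl)
      rw [tendsto_nhdsWithin_iff]
      exact ⟨nhdsWithin_le_nhds, hIco.mono fun φ hφ => Ico_subset_Icc_self hφ⟩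
    rw [dif_pos hsIcc] at h5
    have h6 : (fun φ : ℝ => if h : φ ∈ Icc 0 φs then X ⟨φ, h⟩ else 0) =ᶠ[𝓝[<] φs] cc := by
      filter_upwards [hIco] with φ hφ
      rw [dif_pos (Ico_subset_Icc_self hφ)]
      exact hval φ hφ _
    have h7 := h5.congr' h6
    exact tendsto_nhds_unique h7 h1
  -- value at the end by the principal branch
  have hwconj : Complex.exp (wPath n k φs) = Complex.exp ((starRingEnd ℂ) (wPath n k φs)) := by
    have him : (wPath n k φs).im = -Real.pi := by rw [hwim]; ring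
    have e1 : (starRingEnd ℂ) (wPath n k φs) = wPath n k φs + 2 * Real.pi * I := by
      apply Complex.ext
      · simp
      · simp [him]
        ring
    rw [e1, Complex.exp_add, Complex.exp_two_pi_mul_I, mul_one]
  have hroot_s : root n (Complex.exp (wPath n k φs)) = (starRingEnd ℂ) (tPath n k φs) := by
    have him : (wPath n k φs).im = -Real.pi := by rw [hwim]; ring
    rw [hwconj, root_exp hn1]
    · have e1 : (starRingEnd ℂ) (wPath n k φs) / (2 * n) = (starRingEnd ℂ) (wPath n k φs / (2 * n)) := by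
        rw [map_div₀, map_mul, map_ofNat, map_natCast]
      rw [e1, hwt, Complex.exp_conj]
      rfl
    · rw [Complex.conj_im, him]; linarith
    · rw [Complex.conj_im, him]; linarith
  have htau_s : root n (Complex.exp (wPath n k φs)) ^ (n - 1) =
      (starRingEnd ℂ) (tauPath n k φs) := by
    rw [hroot_s, ← map_pow, htpow]
  obtain ⟨q, hq1, hq2, hq3⟩ := hpar _ H.conj _ hsM (by
    rw [htau_s]
    have e1 : 1 - 4 * (starRingEnd ℂ) (tauPath n k φs) - (starRingEnd ℂ) (base n k) =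
        (starRingEnd ℂ) (1 - 4 * tauPath n k φs - base n k) := by
      simp only [map_sub, map_mul, map_one, map_ofNat]
    rw [e1, Complex.norm_conj]
    exact (hdev φs hsIcc).le)
  rw [htau_s] at hq2
  have hq1' : ‖(starRingEnd ℂ) q - base n k‖ ≤ rad n k := by
    have e1 : (starRingEnd ℂ) q - base n k = (starRingEnd ℂ) (q - (starRingEnd ℂ) (base n k)) := by
      simp
    rw [e1, Complex.norm_conj]
    exact hq1
  have hq2' : R n (tauPath n k φs) ((starRingEnd ℂ) q) = (starRingEnd ℂ) q := by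
    have := R_conj n ((starRingEnd ℂ) (tauPath n k φs)) q
    rw [Complex.conj_conj, hq2] at this
    exact this
  have hqp : (starRingEnd ℂ) q = pp φs :=
    H.fixed_unique (hdev φs hsIcc).le hq1' hq2' (hpp φs hsIcc).1 (hpp φs hsIcc).2
  have hqp' : q = (starRingEnd ℂ) (pp φs) := by rw [← hqp, Complex.conj_conj]
  rw [hqp', Rho_conj, hlimval] at hq3
  have hreal : Rho n (pp φs) = (starRingEnd ℂ) (Rho n (pp φs)) :=
    c_inj (hrho φs hsIcc) (by rw [Complex.norm_conj]; exact hrho φs hsIcc) hq3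
  have him0 : (Rho n (pp φs)).im = 0 := by
    have := congrArg Complex.im hreal
    rw [Complex.conj_im] at this
    linarith
  have hpos := H.im_rho_pos (base_sq n k) hφs0 hφs1
    (show 4 * tauPath n k φs = (1 - base n k) * Complex.exp (-(φs * I)) by unfold tauPath; ring)
    (hdev φs hsIcc).le (hpp φs hsIcc).1 (hpp φs hsIcc).2
  linarith

end Pool.Agent.N226.BM
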