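import Pool.Agent.N226.BM.Contr

/-!
The multiplier is not real when the parameter has been turned by a small positive angle.
-/

set_option autoImplicit false
open Complex Set Metric Topology Filter

namespace Pool.Agent.N226.BM

lemma near_mul {a b : ℂ} {α β : ℝ} (ha : ‖a - 1‖ ≤ α) (hb : ‖b - 1‖ ≤ β) :
    ‖a * b - 1‖ ≤ (1 + α) * (1 + β) - 1 := by
  have e : a * b - 1 = (a - 1) * (b - 1) + (a - 1) + (b - 1) := by ring
  have hα : 0 ≤ α := (norm_nonneg _).trans ha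
  rw [e]
  calc ‖(a - 1) * (b - 1) + (a - 1) + (b - 1)‖ ≤ ‖(a - 1) * (b - 1)‖ + ‖a - 1‖ + ‖b - 1‖ :=
        norm_add₃_le
    _ ≤ α * β + α + β := by
        rw [norm_mul]
        gcongr
    _ = (1 + α) * (1 + β) - 1 := by ring

lemma near_inv {a : ℂ} {α : ℝ} (hα : α < 1) (ha : ‖a - 1‖ ≤ α) :
    a ≠ 0 ∧ ‖a⁻¹ - 1‖ ≤ α / (1 - α) := by
  have h0 : a ≠ 0 := by
    rintro rfl
    simp at ha
    linarith
  refine ⟨h0, ?_⟩
  have h1 : 1 - α ≤ ‖a‖ := by
    have : ‖(1 : ℂ)‖ ≤ ‖a‖ + ‖a - 1‖ := by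
      calc ‖(1 : ℂ)‖ = ‖a - (a - 1)‖ := by congr 1; ring
        _ ≤ _ := norm_sub_le _ _
    rw [norm_one] at this
    linarith
  have e : a⁻¹ - 1 = -(a - 1) / a := by field_simp; ring
  rw [e, norm_div, norm_neg]
  have h2 : 0 < 1 - α := by linarith
  have : 0 ≤ α := (norm_nonneg _).trans ha
  gcongr

variable {n k : ℕ} {u0 : ℂ}

/-- After turning the parameter by a small positive angle `φ` the multiplier has positive
imaginary part. -/
lemma Reg.im_rho_pos (H : Reg n k u0) (hsq : (1 - u0) ^ 2 = -((‖1 - u0‖ ^ 2 : ℝ) : ℂ) * u0)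
    {τ p : ℂ} {φ : ℝ} (hφ : 0 < φ) (hφ2 : φ ≤ 1.6 * k / n)
    (hτ : 4 * τ = (1 - u0) * Complex.exp (-(φ * I)))
    (hτ2 : ‖1 - 4 * τ - u0‖ ≤ rad n k / 2)
    (hp : ‖p - u0‖ ≤ rad n k) (hfix : R n τ p = p) : 0 < (Rho n p).im := by
  have hk := H.kR
  have hn := H.n_pos
  have hnl := H.n_ge
  have hkn : (k : ℝ) / n ≤ 1 / 2000 := by
    rw [div_le_div_iff₀ hn (by norm_num)]
    linarith
  have hφ3 : φ ≤ 0.001 := by
    have : 1.6 * (k : ℝ) / n = 1.6 * (k / n) := by ring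
    rw [this] at hφ2
    linarith
  set A : ℂ := 1 - u0 with hA
  set e : ℂ := p - u0 with he
  have hAnorm : 2 * k / n ≤ ‖A‖ := H.ge
  have hApos : 0 < ‖A‖ := lt_of_lt_of_le (by positivity) hAnorm
  have hA0 : A ≠ 0 := norm_pos_iff.mp hApos
  have hu0 : u0 ≠ 0 := by
    intro h
    have := H.nrm
    rw [h] at this
    simp at this
  have hp0 := H.ne_zero hp
  have hn1 : 1 ≤ n := by
    have := H.n_large
    have h2 : (1 : ℝ) ≤ n := by linarith
    exact_mod_cast h2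
  have hnC : (n : ℂ) ≠ 0 := by
    intro h
    have : (n : ℝ) = 0 := by exact_mod_cast h
    linarith
  have hφC : (φ : ℂ) ≠ 0 := by exact_mod_cast hφ.ne'
  -- f1
  have h1 : ‖(1 - p) / A - 1‖ ≤ 0.01 := by
    have e1 : (1 - p) / A - 1 = -e / A := by
      rw [div_sub_one hA0]
      congr 1
      rw [he, hA]
      ring
    rw [e1, norm_div, norm_neg, div_le_iff₀ hApos]
    have h2 : rad n k ≤ 0.01 * (2 * k / n) := by
      have e2 : rad n k = (1 / (100 * k)) / n := by unfold rad; field_simp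
      have e3 : 0.01 * (2 * (k : ℝ) / n) = (0.02 * k) / n := by ring
      rw [e2, e3]
      apply div_le_div_of_nonneg_right _ hn.le
      rw [div_le_iff₀ (by positivity)]
      nlinarith
    calc ‖e‖ ≤ rad n k := hp
      _ ≤ 0.01 * (2 * k / n) := h2
      _ ≤ 0.01 * ‖A‖ := by gcongr
  -- f2
  have h2 : ‖u0 / p - 1‖ ≤ 0.001 := by
    have e1 : u0 / p - 1 = -e / p := by
      rw [he]
      field_simp
      ring
    have hb := (H.norm_pow_bounds hp hn1).1
    rw [pow_one] at hb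
    rw [e1, norm_div, norm_neg, div_le_iff₀ (by linarith)]
    have := H.rad_le
    have hh : ‖e‖ ≤ rad n k := hp
    nlinarith
  -- f6
  have hz : ‖-((φ : ℂ) * I)‖ = φ := by
    rw [norm_neg, norm_mul, Complex.norm_I, mul_one, Complex.norm_real, Real.norm_eq_abs, abs_of_pos hφ]
  have h6 : ‖(1 - Complex.exp (-(φ * I))) / (φ * I) - 1‖ ≤ 0.001 := by
    have h7 := Complex.norm_exp_sub_one_sub_id_le (x := -((φ : ℂ) * I)) (by rw [hz]; linarith)
    rw [hz] at h7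
    have e1 : (1 - Complex.exp (-(φ * I))) / (φ * I) - 1 =
        -(Complex.exp (-(φ * I)) - 1 - -((φ : ℂ) * I)) / (φ * I) := by
      field_simp
      ring
    have hz' : ‖(φ : ℂ) * I‖ = φ := by rw [← norm_neg]; exact hz
    rw [e1, norm_div, norm_neg, hz', div_le_iff₀ hφ]
    nlinarith
  -- epsilon
  have heps : 1 - 4 * τ - u0 = A * (1 - Complex.exp (-(φ * I))) := by
    rw [hτ, hA]; ring
  have hexp0 : 1 - Complex.exp (-(φ * I)) ≠ 0 := by
    intro h
    rw [h, zero_div, zero_sub, norm_neg, norm_one] at h6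
    norm_num at h6
  have heps0 : 1 - 4 * τ - u0 ≠ 0 := by rw [heps]; exact mul_ne_zero hA0 hexp0
  have hnear := H.fixed_near hτ2 hp hfix
  have he0 : e ≠ 0 := by
    intro h
    rw [← he, h, sub_zero, norm_zero, mul_zero] at hnear
    exact heps0 (norm_le_zero_iff.mp hnear)
  have hepos : 0 < ‖e‖ := norm_pos_iff.mpr he0
  -- f3
  have hu0pow : u0 ^ (n - 1) = -u0⁻¹ := by
    have : u0 ^ (n - 1) * u0 = -1 := by
      rw [← pow_succ, Nat.sub_add_cancel hn1, H.pow]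
    field_simp
    linear_combination this
  have h3 : ‖(p ^ n + 1) / (n * (-u0⁻¹) * e) - 1‖ ≤ 0.02 := by
    have hl := H.powlin hp (by simpa using H.rad_pos.le : ‖u0 - u0‖ ≤ rad n k)
    rw [H.pow, hu0pow, sub_neg_eq_add, ← he] at hl
    have hd : (n : ℂ) * (-u0⁻¹) * e ≠ 0 :=
      mul_ne_zero (mul_ne_zero hnC (neg_ne_zero.mpr (inv_ne_zero hu0))) he0
    have e1 : (p ^ n + 1) / (n * (-u0⁻¹) * e) - 1 =
        (p ^ n + 1 - n * (-u0⁻¹) * e) / (n * (-u0⁻¹) * e) := by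
      rw [sub_div, div_self hd]
    have hnd : ‖(n : ℂ) * (-u0⁻¹) * e‖ = n * ‖e‖ := by
      rw [norm_mul, norm_mul, norm_neg, norm_inv, H.nrm, inv_one, mul_one, Complex.norm_natCast]
    rw [e1, norm_div, hnd, div_le_iff₀ (by positivity)]
    refine hl.trans ?_
    have h7 := H.inv_k_le
    have : (n : ℝ) / (99 * k) * ‖e‖ = (1 / (99 * k)) * (n * ‖e‖) := by ring
    rw [this]
    gcongr
    exact h7.trans (by norm_num)
  -- f4
  have h4 : ‖(1 - 4 * τ - u0) / e - 1‖ ≤ 1 / 30 := by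
    have e1 : (1 - 4 * τ - u0) / e - 1 = ((1 - 4 * τ - u0) - e) / e := by
      rw [sub_div _ e, div_self he0]
    rw [e1, norm_div, div_le_iff₀ hepos]
    exact hnear
  obtain ⟨hne4, h4'⟩ := near_inv (by norm_num) h4
  -- f5
  have h5 : ‖(1 - p ^ n) / 2 - 1‖ ≤ 0.01 := by
    have e1 : (1 - p ^ n) / 2 - 1 = -(p ^ n + 1) / 2 := by ring
    rw [e1, norm_div, norm_neg]
    have h7 := (H.pown_near hp).trans H.inv_k_le
    have h8 : ‖(2 : ℂ)‖ = (2 : ℝ) := by simp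
    rw [h8]
    have : (1 : ℝ) / 99 ≤ 0.02 := by norm_num
    linarith
  obtain ⟨hne5, h5'⟩ := near_inv (by norm_num) h5
  -- f7
  have h7 : ‖u0⁻¹ - 1‖ ≤ 0.01 := by
    have e1 : u0⁻¹ - 1 = (1 - u0) / u0 := by field_simp
    rw [e1, norm_div, H.nrm, div_one]
    have := H.le
    have e2 : 3.2 * (k : ℝ) / n = 3.2 * (k / n) := by ring
    rw [e2] at this
    linarith
  -- the product
  set F : ℂ := ((1 - p) / A) * (u0 / p) * ((p ^ n + 1) / (n * (-u0⁻¹) * e)) *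
    ((1 - 4 * τ - u0) / e)⁻¹ * ((1 - p ^ n) / 2)⁻¹ *
    ((1 - Complex.exp (-(φ * I))) / (φ * I)) * u0⁻¹ with hF
  have hFnear : ‖F - 1‖ < 1 := by
    have := near_mul (near_mul (near_mul (near_mul (near_mul (near_mul h1 h2) h3) h4') h5') h6) h7
    rw [hF]
    refine lt_of_le_of_lt this ?_
    norm_num
  have hpn : p ^ n - 1 ≠ 0 := by
    intro h
    apply hne5
    have : (1 - p ^ n) / 2 = -(p ^ n - 1) / 2 := by ring
    rw [this, h]
    simp
  have hrho : Rho n p = ((n ^ 2 / 2 * ‖A‖ ^ 2 * φ : ℝ) : ℂ) * (I * F) := by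
    have hsq' : ((‖A‖ ^ 2 : ℝ) : ℂ) = -A ^ 2 / u0 := by
      rw [hsq]
      field_simp
    have e0 : ((n ^ 2 / 2 * ‖A‖ ^ 2 * φ : ℝ) : ℂ) = n ^ 2 / 2 * ((‖A‖ ^ 2 : ℝ) : ℂ) * φ := by
      push_cast
      ring
    rw [e0, hsq', hF, heps]
    unfold Rho
    have hI : I ≠ 0 := Complex.I_ne_zero
    have hpn' : 1 - p ^ n ≠ 0 := by
      intro h
      apply hpn
      linear_combination -h
    generalize Complex.exp (-(φ * I)) = E at *
    field_simp
    ring
  rw [hrho, Complex.im_ofReal_mul, Complex.I_mul_im]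
  have hre : 0 < F.re := by
    have h8 := Complex.abs_re_le_norm (F - 1)
    rw [Complex.sub_re, Complex.one_re] at h8
    have h9 := (abs_le.mp h8).1
    linarith
  positivity

end Pool.Agent.N226.BM
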