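import Pool.Agent.N226.BM.NonReal

/-!
The rescaling `z = t u`, `t = a^{1/2n}`, and the straightening at parameters for which both
critical values are attracted by fixed points.
-/

set_option autoImplicit false
open Complex Set Metric Topology Filter

namespace Pool.Agent.N226.BM

lemma root_exp {n : ℕ} (hn : 1 ≤ n) {w : ℂ} (h1 : -Real.pi < w.im) (h2 : w.im ≤ Real.pi) :
    root n (Complex.exp w) = Complex.exp (w / (2 * n)) := by
  have harg : (Complex.exp w).arg = w.im := by
    have h3 := congrArg Complex.im (Complex.log_exp h1 h2)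
    rwa [Complex.log_im] at h3
  have hnC : (n : ℂ) ≠ 0 := by
    have : n ≠ 0 := by omega
    exact_mod_cast this
  unfold root
  rw [harg, Complex.norm_exp, ← Real.exp_mul, Complex.ofReal_exp, ← Complex.exp_add]
  congr 1
  conv_rhs => rw [← Complex.re_add_im w]
  push_cast
  field_simp

lemma root_eq {n : ℕ} (hn : 1 ≤ n) {a : ℂ} (ha : a ≠ 0) :
    root n a = Complex.exp (Complex.log a / (2 * n)) := by
  have := root_exp hn (w := Complex.log a) (Complex.neg_pi_lt_log_im a) (Complex.log_im_le_pi a)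
  rwa [Complex.exp_log ha] at this

lemma sqrtP_eq {a : ℂ} (ha : a ≠ 0) : sqrtP a = Complex.exp (Complex.log a / 2) := by
  have h1 : sqrtP a = root 1 a := by
    unfold sqrtP root
    simp
  rw [h1, root_eq le_rfl ha]
  congr 1
  simp

lemma root_pow_n {n : ℕ} (hn : 1 ≤ n) {a : ℂ} (ha : a ≠ 0) : root n a ^ n = sqrtP a := by
  have hnC : (n : ℂ) ≠ 0 := by
    have : n ≠ 0 := by omega
    exact_mod_cast this
  rw [root_eq hn ha, sqrtP_eq ha, ← Complex.exp_nat_mul]
  congr 1
  field_simp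

lemma root_pow_two_n {n : ℕ} (hn : 1 ≤ n) {a : ℂ} (ha : a ≠ 0) : root n a ^ (2 * n) = a := by
  rw [mul_comm, pow_mul, root_pow_n hn ha, sqrtP_eq ha, ← Complex.exp_nat_mul]
  have : ((2 : ℕ) : ℂ) * (Complex.log a / 2) = Complex.log a := by push_cast; ring
  rw [this, Complex.exp_log ha]

lemma root_ne_zero {n : ℕ} (hn : 1 ≤ n) {a : ℂ} (ha : a ≠ 0) : root n a ≠ 0 := by
  rw [root_eq hn ha]; exact Complex.exp_ne_zero _

lemma r_scale {n : ℕ} (hn : 1 ≤ n) {a : ℂ} (ha : a ≠ 0) (u : ℂ) :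
    r n a (root n a * u) = root n a * R n (root n a ^ (n - 1)) u := by
  have ht := root_ne_zero hn ha
  have h1 := root_pow_n hn ha
  have h2 := root_pow_two_n hn ha
  unfold r bPar R
  rw [← h1]
  set t := root n a with hdef
  have h3 : t * t ^ (n - 1) = t ^ n := by
    rw [← pow_succ', Nat.sub_add_cancel hn]
  have h4 : a / (t * u) ^ n = t ^ n * (u ^ n)⁻¹ := by
    have htn := pow_ne_zero n ht
    rw [← h2, mul_pow, two_mul, pow_add, mul_div_mul_left _ _ htn, div_eq_mul_inv]
  rw [h4, mul_pow]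
  linear_combination (-(u ^ n + (u ^ n)⁻¹ - 2)) * h3

lemma vMinus_scale {n : ℕ} (hn : 1 ≤ n) {a : ℂ} (ha : a ≠ 0) :
    vMinus n a = root n a * (1 - 4 * root n a ^ (n - 1)) := by
  unfold vMinus bPar
  rw [← root_pow_n hn ha]
  have h3 : root n a * root n a ^ (n - 1) = root n a ^ n := by
    rw [← pow_succ', Nat.sub_add_cancel hn]
  linear_combination 4 * h3

lemma iterate_scale {n : ℕ} (hn : 1 ≤ n) {a : ℂ} (ha : a ≠ 0) (u : ℂ) (m : ℕ) :
    (r n a)^[m] (root n a * u) = root n a * (R n (root n a ^ (n - 1)))^[m] u := by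
  induction m with
  | zero => simp
  | succ m ih => rw [Function.iterate_succ_apply', ih, r_scale hn ha, Function.iterate_succ_apply']

variable {n k : ℕ} {u0 : ℂ}

lemma Reg.one_le (H : Reg n k u0) : 1 ≤ n := by
  have := H.n_large
  have h2 : (1 : ℝ) ≤ n := by linarith
  exact_mod_cast h2

/-- The straightening map at parameters `a` where the rescaled critical value is close to a
solution `u0` of `u^n = -1`. -/
theorem Reg.param (H : Reg n k u0) {a c : ℂ} {U' U : Set ℂ} (ha : a ≠ 0)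
    (hτ : ‖1 - 4 * root n a ^ (n - 1) - u0‖ ≤ rad n k / 2)
    (hq : QuadraticLike (r n a) U' U (vMinus n a)) (hh : WeakHybrid (r n a) U' c)
    (hc : c ∈ mandelbrot) :
    ∃ p : ℂ, ‖p - u0‖ ≤ rad n k ∧ R n (root n a ^ (n - 1)) p = p ∧
      c = Rho n p / 2 - Rho n p ^ 2 / 4 := by
  have hn := H.one_le
  have ht := root_ne_zero hn ha
  obtain ⟨p, hp, hfix, hlim⟩ := H.exists_fixed hτ
  refine ⟨p, hp, hfix, ?_⟩
  have hv : vMinus n a = r n a (root n a * u0) := by
    rw [vMinus_scale hn ha, r_scale hn ha, H.R_u0]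
  have hlim2 : Tendsto (fun m => (r n a)^[m] (vMinus n a)) atTop (𝓝 (root n a * p)) := by
    have h1 : (fun m => (r n a)^[m] (vMinus n a)) =
        fun m => root n a * (R n (root n a ^ (n - 1)))^[m + 1] u0 := by
      funext m
      rw [hv, ← Function.iterate_succ_apply, iterate_scale hn ha]
    rw [h1]
    exact (hlim.comp (tendsto_add_atTop_nat 1)).const_mul _
  have hder : HasDerivAt (r n a) (Rho n p) (root n a * p) := by
    have h1 := H.hasDerivAt_fixed hp hfix
    have h2 : r n a = fun z => root n a * R n (root n a ^ (n - 1)) (z / root n a) := by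
      funext z
      rw [← r_scale hn ha]
      congr 1
      field_simp
    rw [h2]
    have h3 : HasDerivAt (fun z : ℂ => z / root n a) (1 / root n a) (root n a * p) := by
      simpa using! (hasDerivAt_id (root n a * p)).div_const (root n a)
    have h4 : HasDerivAt (R n (root n a ^ (n - 1))) (Rho n p) (root n a * p / root n a) := by
      rw [mul_div_cancel_left₀ _ ht]
      exact h1
    have h5 := (h4.comp (root n a * p) h3).const_mul (root n a)
    refine h5.congr_deriv ?_
    field_simp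
  refine straighten_eq hq hh hc hlim2 hder ?_
  have := H.rho_le hτ hp hfix
  linarith

lemma Reg.fixed_unique (H : Reg n k u0) {τ p p' : ℂ} (hτ : ‖1 - 4 * τ - u0‖ ≤ rad n k / 2)
    (hp : ‖p - u0‖ ≤ rad n k) (hfix : R n τ p = p)
    (hp' : ‖p' - u0‖ ≤ rad n k) (hfix' : R n τ p' = p') : p = p' := by
  have := H.fixed_lip hτ hp hfix hp' hfix'
  rw [sub_self, norm_zero, mul_zero] at this
  exact sub_eq_zero.mp (norm_le_zero_iff.mp this)

lemma c_inj {ρ ρ' : ℂ} (h : ‖ρ‖ ≤ 1 / 30) (h' : ‖ρ'‖ ≤ 1 / 30)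
    (he : ρ / 2 - ρ ^ 2 / 4 = ρ' / 2 - ρ' ^ 2 / 4) : ρ = ρ' := by
  have h1 : (ρ - ρ') * (2 - (ρ + ρ')) = 0 := by linear_combination 4 * he
  rcases mul_eq_zero.mp h1 with h2 | h2
  · exact sub_eq_zero.mp h2
  · exfalso
    have h3 : ρ + ρ' = 2 := by linear_combination -h2
    have h4 := norm_add_le ρ ρ'
    rw [h3] at h4
    have h5 : ‖(2 : ℂ)‖ = (2 : ℝ) := by simp
    rw [h5] at h4
    linarith

lemma c_mem {ρ : ℂ} (h : ‖ρ‖ ≤ 1 / 30) : ρ / 2 - ρ ^ 2 / 4 ∈ mandelbrot := by
  set c := ρ / 2 - ρ ^ 2 / 4 with hc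
  have hcn : ‖c‖ ≤ 1 / 4 := by
    rw [hc]
    have h1 := norm_sub_le (ρ / 2) (ρ ^ 2 / 4)
    rw [norm_div, norm_div, norm_pow] at h1
    have h2 : ‖(2 : ℂ)‖ = (2 : ℝ) := by simp
    have h4 : ‖(4 : ℂ)‖ = (4 : ℝ) := by simp
    rw [h2, h4] at h1
    have := norm_nonneg ρ
    nlinarith
  refine ⟨1 / 2, fun m => ?_⟩
  induction m with
  | zero => simp
  | succ m ih =>
    rw [Function.iterate_succ_apply']
    set z := (fun w : ℂ => w ^ 2 + c)^[m] 0
    calc ‖z ^ 2 + c‖ ≤ ‖z ^ 2‖ + ‖c‖ := norm_add_le _ _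
      _ = ‖z‖ ^ 2 + ‖c‖ := by rw [norm_pow]
      _ ≤ (1 / 2) ^ 2 + 1 / 4 := by gcongr
      _ = 1 / 2 := by norm_num

lemma Reg.ne_one (H : Reg n k u0) {p : ℂ} (hp : ‖p - u0‖ ≤ rad n k) : p ^ n - 1 ≠ 0 := by
  intro h
  have := H.pow_sub_one_ge hp
  rw [h] at this
  simp at this
  norm_num at this

lemma Reg.continuousAt_Rho (H : Reg n k u0) {p : ℂ} (hp : ‖p - u0‖ ≤ rad n k) :
    ContinuousAt (Rho n) p := by
  have h0 := H.ne_zero hp
  have h1 := H.ne_one hp
  unfold Rho
  refine ContinuousAt.mul (ContinuousAt.mul continuousAt_const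
    (continuousAt_const.sub (continuousAt_id.inv₀ h0))) ?_
  exact ContinuousAt.div (by fun_prop) (by fun_prop) h1

/-! ### Conjugation -/

lemma Reg.conj (H : Reg n k u0) : Reg n k ((starRingEnd ℂ) u0) where
  hk := H.hk
  hn := H.hn
  pow := by rw [← map_pow, H.pow]; simp
  nrm := by rw [Complex.norm_conj]; exact H.nrm
  le := by
    have : 1 - (starRingEnd ℂ) u0 = (starRingEnd ℂ) (1 - u0) := by simp
    rw [this, Complex.norm_conj]; exact H.le
  ge := by
    have : 1 - (starRingEnd ℂ) u0 = (starRingEnd ℂ) (1 - u0) := by simp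
    rw [this, Complex.norm_conj]; exact H.ge

lemma R_conj (n : ℕ) (τ u : ℂ) :
    R n ((starRingEnd ℂ) τ) ((starRingEnd ℂ) u) = (starRingEnd ℂ) (R n τ u) := by
  unfold R
  simp only [map_add, map_sub, map_mul, map_pow, map_inv₀, map_one, map_ofNat]

lemma Rho_conj (n : ℕ) (p : ℂ) :
    Rho n ((starRingEnd ℂ) p) = (starRingEnd ℂ) (Rho n p) := by
  unfold Rho
  simp only [map_add, map_sub, map_mul, map_pow, map_inv₀, map_one, map_natCast, map_div₀]

/-! ### The base point -/

/-- The angle `θ = kπ/n`. -/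
noncomputable def theta (n k : ℕ) : ℝ := k * Real.pi / n

/-- The base point `e^{iθ}`. -/
noncomputable def base (n k : ℕ) : ℂ := Complex.exp ((theta n k : ℂ) * I)

/-- A logarithm of `(1 - e^{iθ}) / 4`. -/
noncomputable def Lc (n k : ℕ) : ℂ :=
  ((Real.log (Real.sin (theta n k / 2) / 2) : ℝ) : ℂ) + (((theta n k - Real.pi) / 2 : ℝ) : ℂ) * I

lemma base_sq (n k : ℕ) :
    (1 - base n k) ^ 2 = -((‖1 - base n k‖ ^ 2 : ℝ) : ℂ) * base n k := by
  have h1 : ‖base n k‖ = 1 := by unfold base; exact Complex.norm_exp_ofReal_mul_I _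
  have h2 : base n k * (starRingEnd ℂ) (base n k) = 1 := by
    rw [Complex.mul_conj, Complex.normSq_eq_norm_sq, h1]
    simp
  have h3 : ((‖1 - base n k‖ ^ 2 : ℝ) : ℂ) = (1 - base n k) * (1 - (starRingEnd ℂ) (base n k)) := by
    rw [← Complex.normSq_eq_norm_sq, ← Complex.mul_conj]
    simp
  rw [h3]
  linear_combination (-(1 - base n k)) * h2

theorem reg_base {n k : ℕ} (hk : Odd k) (hn : 2000 * k ^ 3 ≤ n) : Reg n k (base n k) := by
  have hk1 : 1 ≤ k := hk.pos
  have hkR : (1 : ℝ) ≤ k := by exact_mod_cast hk1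
  have hnR : 2000 * (k : ℝ) ^ 3 ≤ n := by exact_mod_cast hn
  have hkn : 2000 * (k : ℝ) ≤ n := by
    have h3 : (k : ℝ) ≤ (k : ℝ) ^ 3 := by
      nlinarith [sq_nonneg ((k : ℝ)), mul_self_nonneg ((k : ℝ) - 1)]
    linarith
  have hnpos : (0 : ℝ) < n := by linarith
  have hpi := Real.pi_pos
  have hth : 0 ≤ theta n k := by unfold theta; positivity
  have hth1 : theta n k ≤ Real.pi := by
    unfold theta
    rw [div_le_iff₀ hnpos]
    nlinarith
  refine ⟨hk1, hn, ?_, ?_, ?_, ?_⟩
  · unfold base theta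
    rw [← Complex.exp_nat_mul]
    have h1 : (n : ℂ) * (((k * Real.pi / n : ℝ) : ℂ) * I) = k * (Real.pi * I) := by
      have : (n : ℂ) ≠ 0 := by
        intro h
        have : (n : ℝ) = 0 := by exact_mod_cast h
        linarith
      push_cast
      field_simp
    rw [h1, Complex.exp_nat_mul, Complex.exp_pi_mul_I]
    exact hk.neg_one_pow
  · unfold base; exact Complex.norm_exp_ofReal_mul_I _
  · have h1 : ‖1 - base n k‖ ≤ theta n k := by
      rw [norm_sub_rev]
      unfold base
      rw [mul_comm]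
      have := Real.norm_exp_I_mul_ofReal_sub_one_le (x := theta n k)
      rwa [Real.norm_eq_abs, abs_of_nonneg hth] at this
    refine h1.trans ?_
    unfold theta
    have h3 := Real.pi_lt_d2
    apply div_le_div_of_nonneg_right _ hnpos.le
    nlinarith
  · have h1 : ‖1 - base n k‖ = 2 * Real.sin (theta n k / 2) := by
      rw [norm_sub_rev]
      unfold base
      rw [mul_comm, Complex.norm_exp_I_mul_ofReal_sub_one, Real.norm_eq_abs, abs_of_nonneg]
      have := Real.sin_nonneg_of_nonneg_of_le_pi (x := theta n k / 2) (by linarith) (by linarith)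
      linarith
    rw [h1]
    have h2 := Real.mul_le_sin (x := theta n k / 2) (by linarith) (by linarith)
    have h3 : 2 / Real.pi * (theta n k / 2) = k / n := by
      unfold theta
      field_simp
    rw [h3] at h2
    have h4 : 2 * (k : ℝ) / n = 2 * (k / n) := by ring
    rw [h4]
    linarith

lemma exp_Lc {n k : ℕ} (h0 : 0 < theta n k) (h1 : theta n k < Real.pi) :
    Complex.exp (Lc n k) = (1 - base n k) / 4 := by
  have hs : 0 < Real.sin (theta n k / 2) / 2 := by
    have := Real.sin_pos_of_pos_of_lt_pi (x := theta n k / 2) (by linarith) (by linarith)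
    linarith
  unfold Lc
  rw [Complex.exp_add, ← Complex.ofReal_exp, Real.exp_log hs]
  have h2 : Complex.exp ((((theta n k - Real.pi) / 2 : ℝ) : ℂ) * I) =
      -I * Complex.exp ((theta n k / 2 : ℂ) * I) := by
    have e1 : (((theta n k - Real.pi) / 2 : ℝ) : ℂ) * I =
      (theta n k / 2 : ℂ) * I + -(Real.pi / 2 * I) := by push_cast; ring
    rw [e1, Complex.exp_add, Complex.exp_neg, Complex.exp_pi_div_two_mul_I, Complex.inv_I]
    ring
  have h3 : base n k = Complex.exp ((theta n k / 2 : ℂ) * I) ^ 2 := by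
    unfold base
    rw [← Complex.exp_nat_mul]
    congr 1
    push_cast
    ring
  rw [h2, h3]
  push_cast
  rw [Complex.sin]
  have h4 : Complex.exp (-(theta n k / 2 : ℂ) * I) = (Complex.exp ((theta n k / 2 : ℂ) * I))⁻¹ := by
    rw [← Complex.exp_neg]
    congr 1
    ring
  rw [h4]
  have h5 := Complex.exp_ne_zero ((theta n k / 2 : ℂ) * I)
  generalize Complex.exp ((theta n k / 2 : ℂ) * I) = E at *
  field_simp
  linear_combination (-4 * (1 - E ^ 2)) * Complex.I_sq

end Pool.Agent.N226.BM
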