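import Pool.Agent.N226.BM.Defs

/-!
An attracting fixed point of a quadratic-like map that attracts the critical value determines
the parameter of the straightened quadratic polynomial. The lemma
`deriv_ne_zero_of_injOn` is copied from the starting file `H541R3/Fk/Lim.lean`.
-/

set_option autoImplicit false
open Complex Set Metric Topology Filter

namespace Pool.Agent.N226.BM

/-- A holomorphic injective function on an open set has non-vanishing derivative. -/
lemma deriv_ne_zero_of_injOn {f : ℂ → ℂ} {U : Set ℂ} (hU : IsOpen U) (hf : DifferentiableOn ℂ f U)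
    (hinj : Set.InjOn f U) {z₀ : ℂ} (hz : z₀ ∈ U) : deriv f z₀ ≠ 0 := by
  intro h0
  have hfa : AnalyticAt ℂ f z₀ := hf.analyticAt (hU.mem_nhds hz)
  have hFa : AnalyticAt ℂ (fun z => f z - f z₀) z₀ := hfa.sub analyticAt_const
  have hne : ¬ ∀ᶠ z in 𝓝 z₀, f z - f z₀ = 0 := by
    intro h
    have h1 : ∀ᶠ z in 𝓝[≠] z₀, f z - f z₀ = 0 ∧ z ∈ U ∧ z ≠ z₀ := by
      filter_upwards [h.filter_mono nhdsWithin_le_nhds,
        (hU.mem_nhds hz |> fun h => mem_nhdsWithin_of_mem_nhds h),
        self_mem_nhdsWithin] with z h1 h2 h3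
      exact ⟨h1, h2, h3⟩
    obtain ⟨z, hz1, hz2, hz3⟩ := h1.exists
    exact hz3 (hinj hz2 hz (sub_eq_zero.mp hz1))
  obtain ⟨n, g, hga, hg0, hgeq⟩ := hFa.exists_eventuallyEq_pow_smul_nonzero_iff.mpr hne
  have hn0 : n ≠ 0 := by
    rintro rfl
    have := hgeq.self_of_nhds
    simp at this
    exact hg0 this.symm
  have hn1 : n ≠ 1 := by
    rintro rfl
    have h1 : HasDerivAt (fun z => (z - z₀) ^ 1 • g z) (g z₀) z₀ := by
      have h2 := ((hasDerivAt_id z₀).sub_const z₀).mul hga.differentiableAt.hasDerivAt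
      simpa using! h2
    have h3 : HasDerivAt (fun z => f z - f z₀) (g z₀) z₀ := h1.congr_of_eventuallyEq hgeq
    have h4 : HasDerivAt f (g z₀) z₀ := by simpa using h3.add_const (f z₀)
    rw [h4.deriv] at h0
    exact hg0 h0
  obtain ⟨c, hc⟩ := IsAlgClosed.exists_pow_nat_eq (g z₀) (Nat.pos_of_ne_zero hn0)
  have hc0 : c ≠ 0 := by
    rintro rfl
    rw [zero_pow hn0] at hc
    exact hg0 hc.symm
  set h : ℂ → ℂ := fun z => c * (g z / g z₀) ^ (1 / (n : ℂ)) with hh
  have hslit : g z₀ / g z₀ ∈ Complex.slitPlane := by rw [div_self hg0]; exact Complex.one_mem_slitPlane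
  have hha : AnalyticAt ℂ h z₀ := by
    apply analyticAt_const.mul
    exact (hga.div analyticAt_const hg0).cpow analyticAt_const hslit
  have hnC : (n : ℂ) ≠ 0 := by exact_mod_cast hn0
  have hhn : ∀ z, h z ^ n = g z := by
    intro z
    rw [hh]
    simp only
    rw [mul_pow, hc, ← Complex.cpow_mul_nat]
    rw [one_div, inv_mul_cancel₀ hnC, Complex.cpow_one]
    field_simp
  have hh0 : h z₀ = c := by
    rw [hh]; simp [div_self hg0]
  set φ : ℂ → ℂ := fun z => (z - z₀) * h z with hφ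
  have hφd : HasStrictDerivAt φ c z₀ := by
    have h1 : HasStrictDerivAt h (deriv h z₀) z₀ := hha.hasStrictDerivAt
    have h2 : HasStrictDerivAt (fun z : ℂ => z - z₀) 1 z₀ := (hasStrictDerivAt_id z₀).sub_const z₀
    have h3 := h2.mul h1
    rw [← hh0]
    simpa using! h3
  have hmap : map φ (𝓝 z₀) = 𝓝 0 := by
    have := hφd.map_nhds_eq hc0
    rw [this]
    congr 1
    rw [hφ]; simp
  have hV : ∀ᶠ z in 𝓝 z₀, z ∈ U ∧ f z - f z₀ = φ z ^ n := by
    filter_upwards [hU.mem_nhds hz, hgeq] with z h1 h2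
    refine ⟨h1, ?_⟩
    rw [h2, hφ]
    simp only
    rw [mul_pow, hhn, smul_eq_mul]
  obtain ⟨V, hVm, hV2⟩ := hV.exists_mem
  have himg : φ '' V ∈ 𝓝 (0 : ℂ) := by
    rw [← hmap]
    exact image_mem_map hVm
  set ζ : ℂ := Complex.exp (2 * Real.pi * I / n) with hζ
  have hprim : IsPrimitiveRoot ζ n := Complex.isPrimitiveRoot_exp n hn0
  have hζ1 : ζ ≠ 1 := hprim.ne_one (by omega)
  have hζn : ζ ^ n = 1 := hprim.pow_eq_one
  have hcont : Tendsto (fun w : ℂ => ζ * w) (𝓝 0) (𝓝 0) := by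
    have : Continuous (fun w : ℂ => ζ * w) := by fun_prop
    simpa using this.tendsto 0
  have hboth : ∀ᶠ w in 𝓝[≠] (0 : ℂ), w ∈ φ '' V ∧ ζ * w ∈ φ '' V ∧ w ≠ 0 := by
    filter_upwards [mem_nhdsWithin_of_mem_nhds himg, mem_nhdsWithin_of_mem_nhds (hcont himg),
      self_mem_nhdsWithin] with w h1 h2 h3
    exact ⟨h1, h2, h3⟩
  obtain ⟨w, ⟨z1, hz1, hw1⟩, ⟨z2, hz2, hw2⟩, hw0⟩ := hboth.exists
  have e1 := (hV2 z1 hz1).2
  have e2 := (hV2 z2 hz2).2
  rw [hw1] at e1
  rw [hw2, mul_pow, hζn, one_mul] at e2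
  have e3 : f z1 = f z2 := by
    have : f z1 - f z₀ = f z2 - f z₀ := by rw [e1, e2]
    linear_combination this
  have e4 := hinj (hV2 z1 hz1).1 (hV2 z2 hz2).1 e3
  rw [← e4, hw1] at hw2
  apply hζ1
  have : (ζ - 1) * w = 0 := by linear_combination -hw2
  rcases mul_eq_zero.mp this with h1 | h1
  · linear_combination h1
  · exact absurd h1 hw0

/-- A map with nonzero derivative at a point, differentiable near it, is injective near it. -/
lemma eventually_injOn {f : ℂ → ℂ} {U : Set ℂ} (hU : IsOpen U) (hf : DifferentiableOn ℂ f U)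
    {w : ℂ} (hw : w ∈ U) (hd : deriv f w ≠ 0) : ∃ N ∈ 𝓝 w, InjOn f N := by
  have hfa : AnalyticAt ℂ f w := hf.analyticAt (hU.mem_nhds hw)
  have hs : HasStrictDerivAt f (deriv f w) w := hfa.hasStrictDerivAt
  have hs2 := hs.hasStrictFDerivAt_equiv hd
  refine ⟨(hs2.toOpenPartialHomeomorph f).source, ?_, ?_⟩
  · exact (hs2.toOpenPartialHomeomorph f).open_source.mem_nhds hs2.mem_toOpenPartialHomeomorph_source
  · have := (hs2.toOpenPartialHomeomorph f).injOn
    simpa using this

/-- If `f` is attracting at a fixed point inside an open set, a whole neighbourhood of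
the fixed point stays in the set forever. -/
lemma attracting_nhds {f : ℂ → ℂ} {U : Set ℂ} (hU : IsOpen U) {P ρ : ℂ} (hP : P ∈ U)
    (hfP : f P = P) (hd : HasDerivAt f ρ P) (hρ : ‖ρ‖ < 1) :
    P ∈ interior (filledJulia f U) := by
  obtain ⟨q, hq1, hq2⟩ := exists_between hρ
  have h1 : ∀ᶠ z in 𝓝 P, ‖f z - f P‖ ≤ q * ‖z - P‖ := by
    have hlt := hd.isLittleO
    have h2 : ∀ᶠ z in 𝓝 P, ‖f z - f P - (z - P) • ρ‖ ≤ (q - ‖ρ‖) * ‖z - P‖ :=
      (hasDerivAt_iff_isLittleO.mp hd).def (by linarith)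
    filter_upwards [h2] with z hz
    calc ‖f z - f P‖ = ‖(f z - f P - (z - P) • ρ) + (z - P) • ρ‖ := by congr 1; ring
      _ ≤ ‖f z - f P - (z - P) • ρ‖ + ‖(z - P) • ρ‖ := norm_add_le _ _
      _ ≤ (q - ‖ρ‖) * ‖z - P‖ + ‖z - P‖ * ‖ρ‖ := by
          rw [norm_smul]; linarith
      _ = q * ‖z - P‖ := by ring
  obtain ⟨δ, hδ, hball⟩ := Metric.eventually_nhds_iff_ball.mp (h1.and (hU.mem_nhds hP))
  rw [mem_interior_iff_mem_nhds]
  apply Filter.mem_of_superset (Metric.ball_mem_nhds P hδ)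
  intro z hz m
  have key : ∀ m : ℕ, f^[m] z ∈ ball P δ := by
    intro m
    induction m with
    | zero => simpa using hz
    | succ m ih =>
      rw [Function.iterate_succ_apply']
      have h3 := (hball _ ih).1
      rw [hfP] at h3
      rw [mem_ball, dist_eq_norm] at ih ⊢
      have h4 : q * ‖f^[m] z - P‖ ≤ ‖f^[m] z - P‖ := by
        have := norm_nonneg (f^[m] z - P)
        nlinarith
      linarith
  exact (hball _ (key m)).2

lemma mem_filledJulia_iterate {f : ℂ → ℂ} {U : Set ℂ} {z : ℂ} (hz : z ∈ filledJulia f U) (m : ℕ) :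
    f^[m] z ∈ filledJulia f U := by
  intro j
  rw [← Function.iterate_add_apply]
  exact hz _

/-- The straightening of a quadratic-like map whose critical value is attracted by a fixed point
of multiplier `ρ`. -/
theorem straighten_eq {f : ℂ → ℂ} {U' U : Set ℂ} {v c P ρ : ℂ} (hq : QuadraticLike f U' U v)
    (hh : WeakHybrid f U' c) (hc : c ∈ mandelbrot)
    (hlim : Tendsto (fun m => f^[m] v) atTop (𝓝 P)) (hd : HasDerivAt f ρ P) (hρ : ‖ρ‖ < 1) :
    c = ρ / 2 - ρ ^ 2 / 4 := by
  obtain ⟨h, hsrc, himg, hconj, hdiff⟩ := hh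
  have hU' : IsOpen U' := hq.disc'.1
  set K := filledJulia f U' with hK
  have hKU : K ⊆ U' := fun z hz => by simpa using hz 0
  -- the point with `h w = 0`
  have h0 : (0 : ℂ) ∈ filledJuliaQuad c := hc
  rw [← himg] at h0
  obtain ⟨w, hwK, hw0⟩ := h0
  have hfw : f w ∈ K := by simpa using mem_filledJulia_iterate hwK 1
  have hfcont : ContinuousAt f w :=
    (hq.holo.differentiableAt (hU'.mem_nhds (hKU hwK))).continuousAt
  -- it is the critical point
  have hcrit : deriv f w = 0 := by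
    by_contra hne
    obtain ⟨N, hN, hinj⟩ := eventually_injOn hU' hq.holo (hKU hwK) hne
    have hsymm : Tendsto h.symm (𝓝 0) (𝓝 w) := by
      have h1 : ContinuousAt h.symm (h w) := h.continuousAt_symm (h.map_source (hsrc hwK))
      have h2 : h.symm (h w) = w := h.left_inv (hsrc hwK)
      rw [ContinuousAt, h2, hw0] at h1
      exact h1
    have hneg : Tendsto (fun ζ : ℂ => h.symm (-ζ)) (𝓝 0) (𝓝 w) := by
      apply hsymm.comp
      have : Continuous (fun ζ : ℂ => -ζ) := continuous_neg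
      simpa using this.tendsto 0
    have htarget : h.target ∈ 𝓝 (0 : ℂ) := by
      rw [← hw0]; exact h.open_target.mem_nhds (h.map_source (hsrc hwK))
    have htargetneg : ∀ᶠ ζ in 𝓝 (0 : ℂ), -ζ ∈ h.target := by
      have : Tendsto (fun ζ : ℂ => -ζ) (𝓝 0) (𝓝 0) := by
        simpa using (continuous_neg (G := ℂ)).tendsto 0
      exact this htarget
    have hgood : ∀ᶠ z in 𝓝 w, z ∈ N ∧ z ∈ U' ∧ f z ∈ h.source := by
      filter_upwards [hN, hU'.mem_nhds (hKU hwK),
        hfcont (h.open_source.mem_nhds (hsrc hfw))] with z a1 a2 a3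
      exact ⟨a1, a2, a3⟩
    have hev : ∀ᶠ ζ in 𝓝[≠] (0 : ℂ), (h.symm ζ ∈ N ∧ h.symm ζ ∈ U' ∧ f (h.symm ζ) ∈ h.source) ∧
        (h.symm (-ζ) ∈ N ∧ h.symm (-ζ) ∈ U' ∧ f (h.symm (-ζ)) ∈ h.source) ∧ ζ ∈ h.target ∧
        -ζ ∈ h.target ∧ ζ ≠ 0 := by
      filter_upwards [nhdsWithin_le_nhds (hsymm hgood), nhdsWithin_le_nhds (hneg hgood),
        nhdsWithin_le_nhds htarget, nhdsWithin_le_nhds htargetneg,
        self_mem_nhdsWithin] with ζ a1 a2 a3 a4 a5
      exact ⟨a1, a2, a3, a4, a5⟩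
    obtain ⟨ζ, ⟨a1, a2, a3⟩, ⟨b1, b2, b3⟩, ht, ht', hζ⟩ := hev.exists
    have e1 := hconj _ (h.map_target ht) a2 a3
    have e2 := hconj _ (h.map_target ht') b2 b3
    rw [h.right_inv ht] at e1
    rw [h.right_inv ht', neg_sq] at e2
    have e3 : f (h.symm ζ) = f (h.symm (-ζ)) := h.injOn a3 b3 (e1.trans e2.symm)
    have e4 : h.symm ζ = h.symm (-ζ) := hinj a1 b1 e3
    have e5 : ζ = -ζ := by
      calc ζ = h (h.symm ζ) := (h.right_inv ht).symm
        _ = h (h.symm (-ζ)) := by rw [e4]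
        _ = -ζ := h.right_inv ht'
    apply hζ
    have : (2 : ℂ) * ζ = 0 := by linear_combination e5
    simpa using this
  obtain ⟨w', hw'U, hfw', -, huniq⟩ := hq.crit
  have hww' : w = w' := huniq w (hKU hwK) hcrit
  have hfwv : f w = v := by rw [hww', hfw']
  have hvK : v ∈ K := hfwv ▸ hfw
  -- the limit lies in the filled Julia set
  have hcomp : IsCompact (U' ∩ f ⁻¹' (closure U')) := hq.proper _ hq.subset hq.compact
  have hKA : K ⊆ U' ∩ f ⁻¹' (closure U') := by
    intro z hz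
    refine ⟨hKU hz, subset_closure ?_⟩
    simpa using hz 1
  have hPA : P ∈ U' ∩ f ⁻¹' (closure U') := by
    refine hcomp.isClosed.mem_of_tendsto hlim (Eventually.of_forall fun m => ?_)
    exact hKA (mem_filledJulia_iterate hvK m)
  have hPU : P ∈ U' := hPA.1
  have hPcont : ContinuousAt f P := (hq.holo.differentiableAt (hU'.mem_nhds hPU)).continuousAt
  have hfP : f P = P := by
    have h1 : Tendsto (fun m => f (f^[m] v)) atTop (𝓝 (f P)) := hPcont.tendsto.comp hlim
    have h2 : Tendsto (fun m => f^[m + 1] v) atTop (𝓝 P) := hlim.comp (tendsto_add_atTop_nat 1)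
    have h3 : (fun m => f (f^[m] v)) = fun m => f^[m + 1] v := by
      funext m; rw [Function.iterate_succ_apply']
    rw [h3] at h1
    exact tendsto_nhds_unique h1 h2
  have hPint : P ∈ interior K := attracting_nhds hU' hPU hfP hd hρ
  have hPK : P ∈ K := interior_subset hPint
  have hhd : DifferentiableAt ℂ h P := hdiff.differentiableAt (isOpen_interior.mem_nhds hPint)
  have hne : deriv h P ≠ 0 := by
    refine deriv_ne_zero_of_injOn isOpen_interior hdiff ?_ hPint
    exact h.injOn.mono (interior_subset.trans hsrc)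
  have hconjP : h P = (h P) ^ 2 + c := by
    have := hconj P (hsrc hPK) hPU (by rw [hfP]; exact hsrc hPK)
    rw [hfP] at this
    exact this
  have hchain : deriv h P * ρ = 2 * h P * deriv h P := by
    have h1 : HasDerivAt (fun z => h (f z)) (deriv h P * ρ) P := by
      have h2 : HasDerivAt h (deriv h P) (f P) := by rw [hfP]; exact hhd.hasDerivAt
      exact h2.comp P hd
    have h3 : HasDerivAt (fun z => (h z) ^ 2 + c) (2 * h P * deriv h P) P := by
      have := (hhd.hasDerivAt.pow 2).add_const c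
      simpa using this
    have h4 : (fun z => h (f z)) =ᶠ[𝓝 P] fun z => (h z) ^ 2 + c := by
      have hs : ∀ᶠ z in 𝓝 P, f z ∈ h.source := by
        apply hPcont
        rw [hfP]
        exact h.open_source.mem_nhds (hsrc hPK)
      filter_upwards [h.open_source.mem_nhds (hsrc hPK), hU'.mem_nhds hPU, hs] with z a1 a2 a3
      exact hconj z a1 a2 a3
    exact h1.unique (h3.congr_of_eventuallyEq h4)
  have hρ2 : ρ = 2 * h P := by
    have : deriv h P * (ρ - 2 * h P) = 0 := by linear_combination hchain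
    rcases mul_eq_zero.mp this with h1 | h1
    · exact absurd h1 hne
    · linear_combination h1
  rw [hρ2]
  linear_combination -hconjP

end Pool.Agent.N226.BM
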